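import Pool.Agent.H26.Bunchy.Defs

/-!
# Definitions for the structure of a smallest synchronizing factor

Bunchy factor problem `MP_644d19_co`.
-/

set_option autoImplicit false

namespace Pool.Agent.H99.TT

open Pool.Agent.H75.Bunchy Pool.Agent.H26.Bunchy

/-- `C` is a set of vertices of `G` over one vertex of `H`, and for every right resolver `G → H` with
the vertex map `v` some path of `H` leads all of `C` to one vertex of `G`. -/
def Collapsible {G H : Graph} (v : G.V → H.V) (C : Set G.V) : Prop :=
  ∃ J : H.V, (∀ x ∈ C, v x = J) ∧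
    ∀ Φ' : RightResolver G H, Φ'.v = v → ∃ (u : List H.E) (K : G.V), ∀ x ∈ C, Φ'.Leads x u K

/-- a set of vertices over one vertex `I`, all with at least two followers over one vertex `J` -/
def Splitting {G H : Graph} (v : G.V → H.V) (D : Set G.V) : Prop :=
  ∃ I J : H.V, ∀ x ∈ D, v x = I ∧ 2 ≤ (FollowersOver v x J).ncard

/-- no vertex over a member of the list `γ` has two followers over the next member -/
def NarrowList {G H : Graph} (v : G.V → H.V) (γ : List H.V) : Prop :=
  γ.IsChain fun K K' => ∀ x, v x = K → (FollowersOver v x K').ncard ≤ 1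

/-- the end vertices of the paths from `x` that successively visit vertices over the members of
the list `γ` (after `x`) -/
def Ends {G H : Graph} (v : G.V → H.V) (γ : List H.V) (x : G.V) : Set G.V :=
  {y | Along v x γ y}

/-- the vertices at which, for every `m`, a path over `m` repetitions of the list `γ` ends that
starts over `I` -/
def Core {G H : Graph} (v : G.V → H.V) (I : H.V) (γ : List H.V) : Set G.V :=
  {x | ∀ m : ℕ, ∃ y, v y = I ∧ x ∈ Ends v (List.replicate m γ).flatten y}

/-- Every right resolver `G → H` with the vertex map `v` has degree at most `n`: some path of `H`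
leads the vertices over its start to at most `n` vertices. -/
def DegreeLe {G H : Graph} (v : G.V → H.V) (n : ℕ) : Prop :=
  ∀ Φ' : RightResolver G H, Φ'.v = v → ∃ (J : H.V) (u : List H.E), H.IsPath J u ∧
    {K | ∃ I, Φ'.v I = J ∧ Φ'.Leads I u K}.ncard ≤ n

/-- The vertices over `J` can be divided into `r` parts, each of which has the share `1 / r` for all
fair weights. -/
def EqualParts {G H : Graph} (v : G.V → H.V) (J : H.V) (r : ℕ) : Prop :=
  ∃ c : G.V → ℕ, ∀ (pr : H.V → H.V → ℝ) (μ : G.V → ℝ), FairWeights v pr μ → ∀ x, v x = J →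
    (r : ℝ) * ∑ᶠ y ∈ {y | v y = J ∧ c y = c x}, share v μ y = 1

/-- `ρ` is the least degree of the right resolvers `G → H` with the vertex map `v`: the least number
of end vertices of the paths of `G` over one path of `H`. -/
def LeastDegree {G H : Graph} (v : G.V → H.V) (ρ : ℕ) : Prop :=
  (∀ (Φ' : RightResolver G H) (J : H.V) (u : List H.E), Φ'.v = v → H.IsPath J u →
    ρ ≤ {K | ∃ I, Φ'.v I = J ∧ Φ'.Leads I u K}.ncard) ∧
  ∃ (Φ' : RightResolver G H) (J : H.V) (u : List H.E), Φ'.v = v ∧ H.IsPath J u ∧
    {K | ∃ I, Φ'.v I = J ∧ Φ'.Leads I u K}.ncard = ρ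

/-- The vertex map `v` from `G` to `H` factors over a graph `N` which has a synchronizing right
resolver onto `H` and of which `G` is a double cover: two vertices of `G` over each vertex of `N`, and
no vertex of `G` has two followers over one vertex of `N`. -/
def DoubleCover {G H : Graph} (v : G.V → H.V) : Prop :=
  ∃ (N : Graph) (Λ : RightResolver G N) (Γ : RightResolver N H), Γ.Synchronizing ∧
    (∀ x, Γ.v (Λ.v x) = v x) ∧ (∀ y, {x | Λ.v x = y}.ncard = 2) ∧
    ∀ x J, (FollowersOver Λ.v x J).ncard ≤ 1

end Pool.Agent.H99.TT
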