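import Pool.Agent.H99.TT.Both
import Pool.Agent.H99.TT.Defs
import Pool.Agent.H49.SB.Main

/-!
# Two thirds: the graph form

Module of `MP_644d19_co` (two thirds).
-/

set_option autoImplicit false
set_option linter.unusedSectionVars false
set_option linter.unusedVariables false
set_option linter.deprecated false

namespace Pool.Agent.H99.TT

open Pool.Agent.H75.Bunchy Pool.Agent.H26.Bunchy Pool.Agent.H49.SB
open scoped Classical

/-- one vertex is collapsed by the empty path -/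
lemma collapsible_singleton {H N : Graph} (v : H.V → N.V) (z : H.V) :
    Collapsible (H := N) v {z} :=
  ⟨v z, fun x hx => by rw [Set.mem_singleton_iff.1 hx], fun Φ' _ => ⟨[], z, fun x hx => by
    rw [Set.mem_singleton_iff.1 hx]; exact RightResolver.Leads.nil z⟩⟩

section Graphs

noncomputable local instance (G : Graph) : Fintype G.V := Fintype.ofFinite _
noncomputable local instance (G : Graph) : Fintype G.E := Fintype.ofFinite _

variable {G H : Graph}

/-- comparison of the number of splits with the flexible slots -/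
lemma splits_le_flex (Φ : RightResolver G H) {τ : H.E → H.E} (hτ : Swp H.src H.tgt τ)
    {Φ' : RightResolver G H} (hv : Φ'.v = Φ.v)
    (hlet : ∀ p J, 2 ≤ (FollowersOver Φ.v p J).ncard → ∃ e, H.src e = Φ.v p ∧ H.tgt e = J ∧
      Φ'.act p e ≠ Φ'.act p (τ e))
    {pr : H.V → H.V → ℝ} {μ : G.V → ℝ} (hf : FairWeights Φ.v pr μ) :
    ∑ᶠ x, (splits Φ.v x : ℝ) * share Φ.v μ x ≤
      ∑ y ∈ flex H.src Φ'.v Φ'.act τ, wt Φ.v μ y.1 := by
  simp only [share_eq]
  rw [finsum_eq_sum_of_fintype, hv]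
  by_cases hEne : Nonempty H.E
  swap
  · have h0 : ∀ x, (splits Φ.v x : ℝ) = 0 := by
      intro x
      rw [Nat.cast_eq_zero]
      unfold splits
      rw [Set.ncard_eq_zero (Set.toFinite _), Set.eq_empty_iff_forall_notMem]
      intro J hJ
      obtain ⟨e, _⟩ := hlet x J hJ
      exact hEne ⟨e⟩
    simp only [h0, zero_mul, Finset.sum_const_zero]
    exact Finset.sum_nonneg fun x _ => (wt_pos hf.mu_pos _).le
  choose! e he1 he2 he3 using hlet
  set P : Finset (G.V × H.V) := Finset.univ.filter fun x => 2 ≤ (FollowersOver Φ.v x.1 x.2).ncard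
    with hP
  have h1 : ∑ x, (splits Φ.v x : ℝ) * wt Φ.v μ x = ∑ x ∈ P, wt Φ.v μ x.1 := by
    rw [hP, Finset.sum_filter, ← Finset.univ_product_univ, Finset.sum_product]
    refine Finset.sum_congr rfl fun p _ => ?_
    simp only
    rw [← Finset.sum_filter, Finset.sum_const, nsmul_eq_mul]
    congr 2
    unfold splits
    rw [Set.ncard_eq_toFinset_card _ (Set.toFinite _)]
    congr 1
    ext J
    rw [Set.Finite.mem_toFinset, Finset.mem_filter]
    simp
  rw [h1]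
  have hinj : Set.InjOn (fun x : G.V × H.V => slot τ x.1 (e x.1 x.2)) (P : Set (G.V × H.V)) := by
    rintro ⟨p, J⟩ hp ⟨q, J'⟩ hq heq
    simp only [hP, Finset.coe_filter, Finset.mem_univ, true_and, Set.mem_setOf_eq] at hp hq
    have h2 := slot_eq heq
    simp only at h2
    obtain ⟨rfl, h3⟩ := h2
    have h4 : J = J' := by
      rw [← he2 p J hp, ← he2 p J' hq]
      rcases h3 with h | h
      · rw [h]
      · rw [h, hτ.ht]
    rw [h4]
  have h2 : ∑ x ∈ P, wt Φ.v μ x.1 =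
      ∑ y ∈ P.image (fun x : G.V × H.V => slot τ x.1 (e x.1 x.2)), wt Φ.v μ y.1 := by
    rw [Finset.sum_image hinj]
    rfl
  rw [h2]
  refine Finset.sum_le_sum_of_subset_of_nonneg ?_ (fun y _ _ => (wt_pos hf.mu_pos _).le)
  intro y hy
  rw [Finset.mem_image] at hy
  obtain ⟨⟨p, J⟩, hpJ, rfl⟩ := hy
  rw [hP, Finset.mem_filter] at hpJ
  unfold flex
  rw [Finset.mem_filter]
  exact ⟨Finset.mem_univ _, e p J, he1 p J hpJ.2, he3 p J hpJ.2, rfl⟩

/-- **Both bounds, for graphs without stable recolourings.** -/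
theorem bounds_graph (Φ : RightResolver G H) (hG : G.StronglyConnected)
    (hno : ∀ Φ' : RightResolver G H, Φ'.v = Φ.v → NoStable H.src H.tgt Φ'.v Φ'.act)
    {ρ : ℕ} (hρ : ∀ Φ' : RightResolver G H, Φ'.v = Φ.v → ρ ≤ rank H.src H.tgt Φ'.v Φ'.act)
    {pr : H.V → H.V → ℝ} {μ : G.V → ℝ} (hf : FairWeights Φ.v pr μ) :
    ((∃ x, splits Φ.v x ≠ 0) →
      ∃ x, splits Φ.v x ≠ 0 ∧ ∀ C : Set G.V, C.Nonempty → Collapsible (H := H) Φ.v C →
        3 * (2 * ∑ᶠ z ∈ C, share Φ.v μ z + ∑ᶠ x, (splits Φ.v x : ℝ) * share Φ.v μ x) ≤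
          2 + 6 * share Φ.v μ x) ∧
    ∀ C : Set G.V, C.Nonempty → Collapsible (H := H) Φ.v C →
      (ρ : ℝ) * (2 * ∑ᶠ z ∈ C, share Φ.v μ z +
        ∑ᶠ x, (splits Φ.v x : ℝ) * share Φ.v μ x) ≤ 2 := by
  obtain ⟨τ, hτ, hpair, hone⟩ := exists_pairing H
  obtain ⟨Φ', hv, hΦ'⟩ := exists_spread Φ hτ hone
  -- the letter of the pair over `J`
  have hlet : ∀ p J, 2 ≤ (FollowersOver Φ.v p J).ncard → ∃ e, H.src e = Φ.v p ∧ H.tgt e = J ∧
      Φ'.act p e ≠ Φ'.act p (τ e) := by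
    intro p J h2
    obtain ⟨e, h3, h4, h5⟩ := hpair (Φ.v p) J (h2.trans (Φ.ncard_followersOver_le p J))
    exact ⟨e, h3, h4, hΦ' p e h3 h5 (by rw [h4]; exact h2)⟩
  have hf' : FairWeights Φ'.v pr μ := by rw [hv]; exact hf
  have hstat := hf'.toStat
  have htwist : ∀ δ, ∃ Φ'' : RightResolver G H, Φ''.v = Φ.v ∧ Φ''.act = tw τ δ Φ'.act := by
    intro δ
    obtain ⟨Φ'', hv'', hact''⟩ := exists_twist Φ' hτ δ
    exact ⟨Φ'', by rw [hv'', hv], hact''⟩
  have hsu : ∀ e, ∃ p, H.src e = Φ'.v p := fun e => by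
    obtain ⟨p, hp⟩ := Φ'.v_surj (H.src e)
    exact ⟨p, hp.symm⟩
  have hno' : ∀ δ, NoStable H.src H.tgt Φ'.v (tw τ δ Φ'.act) := fun δ => by
    obtain ⟨Φ'', hv'', hact''⟩ := htwist δ
    have := hno Φ'' hv''
    rw [hv'', hact''] at this
    rw [hv]
    exact this
  have hρ' : ∀ δ, ρ ≤ rank H.src H.tgt Φ'.v (tw τ δ Φ'.act) := fun δ => by
    obtain ⟨Φ'', hv'', hact''⟩ := htwist δ
    have := hρ Φ'' hv''
    rw [hv'', hact''] at this
    rw [hv]
    exact this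
  -- collapsible sets
  have hvala : ∀ C : Set G.V, C.Nonempty → Collapsible (H := H) Φ.v C →
      Vala H.src H.tgt Φ'.v Φ'.act τ C.toFinite.toFinset ∅ ∅ := by
    rintro C ⟨z, hz⟩ ⟨J, hCJ, hu⟩
    refine ⟨J, fun x hx => ?_, fun δ' _ => ?_⟩
    · rw [Set.Finite.mem_toFinset] at hx
      rw [hv]; exact hCJ x hx
    · obtain ⟨Φ'', hv'', hact''⟩ := htwist δ'
      obtain ⟨u, K', hK'⟩ := hu Φ'' hv''
      have hpath := ((Φ''.leads_iff _ _ _).1 (hK' z hz)).1
      rw [hv'', hCJ z hz] at hpath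
      refine ⟨u, hpath, fun x hx y hy => ?_⟩
      rw [Set.Finite.mem_toFinset] at hx hy
      have h1 := ((Φ''.leads_iff _ _ _).1 (hK' x hx)).2
      have h2 := ((Φ''.leads_iff _ _ _).1 (hK' y hy)).2
      rw [← hact'', h1, h2]
  have hS := splits_le_flex Φ hτ hv hlet hf
  have hCsum : ∀ C : Set G.V, ∑ᶠ z ∈ C, share Φ.v μ z =
      ∑ p ∈ C.toFinite.toFinset, wt Φ.v μ p := fun C => by
    rw [finsum_mem_eq_finite_toFinset_sum _ C.toFinite]
    simp only [share_eq]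
  by_cases hfl : (flex H.src Φ'.v Φ'.act τ).Nonempty
  swap
  · refine ⟨fun hsp => ?_, fun C hne hC => ?_⟩
    · obtain ⟨x, hx⟩ := hsp
      unfold splits at hx
      obtain ⟨J, hJ⟩ := Set.nonempty_of_ncard_ne_zero hx
      obtain ⟨e, he1, he2, he3⟩ := hlet x J hJ
      refine absurd ⟨slot τ x e, ?_⟩ hfl
      unfold flex
      rw [Finset.mem_filter]
      exact ⟨Finset.mem_univ _, e, by rw [hv]; exact he1, he3, rfl⟩
    · obtain ⟨z, hz⟩ := id hne
      have hb := rank_bound_no_flex (τ := τ) hτ Φ'.act_typed (Φ'.conn hG) hstat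
        (fun e => by simp only [hτ.hs, hτ.ht]) hsu hfl hρ' (hvala C hne hC) z
      rw [hv] at hb hS
      rw [hCsum]
      refine le_trans (mul_le_mul_of_nonneg_left (add_le_add_right hS _)
        (Nat.cast_nonneg (α := ℝ) ρ)) hb
  obtain ⟨x, hx, hb⟩ := both_bound (τ := τ) hτ Φ'.act_typed (Φ'.conn hG) hstat
    (fun e => by simp only [hτ.hs, hτ.ht]) hsu hno' hfl
  rw [hv] at hb hS
  refine ⟨fun _ => ⟨x.1, ?_, fun C hne hC => ?_⟩, fun C hne hC => ?_⟩
  · -- the state of a flexible slot splits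
    unfold flex at hx
    rw [Finset.mem_filter] at hx
    obtain ⟨_, e, he1, he2, _⟩ := hx
    unfold splits
    intro h0
    rw [Set.ncard_eq_zero (Set.toFinite _), Set.eq_empty_iff_forall_notMem] at h0
    refine h0 (H.tgt e) ?_
    rw [Set.mem_setOf_eq, ← hv]
    have h1 : ({Φ'.act x.1 e, Φ'.act x.1 (τ e)} : Set G.V) ⊆
        FollowersOver Φ'.v x.1 (H.tgt e) := by
      rintro q (rfl | hq)
      · rw [Φ'.mem_followersOver]
        exact ⟨e, he1, rfl, rfl⟩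
      · rw [Set.mem_singleton_iff] at hq
        subst hq
        rw [Φ'.mem_followersOver]
        exact ⟨τ e, by rw [hτ.hs]; exact he1, hτ.ht e, rfl⟩
    rw [← Set.ncard_pair he2]
    exact Set.ncard_le_ncard h1 (Set.toFinite _)
  · have h1 := (hb _ (by rw [← hv]; exact hvala C hne hC)).1
    rw [hCsum, share_eq]
    exact le_trans (mul_le_mul_of_nonneg_left (add_le_add_right hS _) (by norm_num)) h1
  · have h1 := (hb _ (by rw [← hv]; exact hvala C hne hC)).2 ρ (by rw [← hv]; exact hρ')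
    rw [hCsum]
    exact le_trans (mul_le_mul_of_nonneg_left (add_le_add_right hS _)
      (Nat.cast_nonneg (α := ℝ) ρ)) h1

end Graphs

/-- **Two thirds, over all bases.** -/
theorem main_two_thirds' (G B : Graph) (hG : G.StronglyConnected) (Φ : RightResolver G B) :
    ∃ (H : Graph) (Θ : RightResolver H B) (Ψ : RightResolver G H), Ψ.Synchronizing ∧
      (∀ p, Θ.v (Ψ.v p) = Φ.v p) ∧
      (IsBunchy B → Function.Injective Θ.v → IsBunchy H) ∧
      ∀ (N : Graph) (Λ : RightResolver H N),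
        (Minimal B ∨ ∃ Γ : RightResolver N B, ∀ x, Γ.v (Λ.v x) = Θ.v x) →
        (∀ I J : N.V, ∃ x, Λ.v x = I ∧ (FollowersOver Λ.v x J).ncard ≤ 1) ∧
        (¬ Function.Injective Λ.v →
          ∃ ρ : ℕ, 2 ≤ ρ ∧
            (∀ (Λ' : RightResolver H N) (J : N.V) (u : List N.E), Λ'.v = Λ.v → N.IsPath J u →
              ρ ≤ {K | ∃ I, Λ'.v I = J ∧ Λ'.Leads I u K}.ncard) ∧
            (∃ (Λ' : RightResolver H N) (J : N.V) (u : List N.E), Λ'.v = Λ.v ∧ N.IsPath J u ∧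
              {K | ∃ I, Λ'.v I = J ∧ Λ'.Leads I u K}.ncard = ρ) ∧
            ∀ (pr : N.V → N.V → ℝ) (μ : H.V → ℝ), FairWeights Λ.v pr μ →
              3 * ∑ᶠ x, (splits Λ.v x : ℝ) * share Λ.v μ x ≤ 2 ∧
              (∀ C : Set H.V, C.Nonempty → Collapsible (H := N) Λ.v C →
                (ρ : ℝ) * (2 * ∑ᶠ z ∈ C, share Λ.v μ z +
                  ∑ᶠ x, (splits Λ.v x : ℝ) * share Λ.v μ x) ≤ 2) ∧
              ((∃ x, splits Λ.v x ≠ 0) → ∃ x, splits Λ.v x ≠ 0 ∧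
                ∀ C : Set H.V, C.Nonempty → Collapsible (H := N) Λ.v C →
                  3 * (2 * ∑ᶠ z ∈ C, share Λ.v μ z +
                    ∑ᶠ x, (splits Λ.v x : ℝ) * share Λ.v μ x) ≤ 2 + 6 * share Λ.v μ x)) := by
  obtain ⟨H, Θ, Ψ, hΨ, hcomm, hmin⟩ := exists_smallest G B Φ
  have hH : H.StronglyConnected := StronglyConnected.map Ψ hG
  have hall : ∀ (N : Graph) (Λ : RightResolver H N),
      (Minimal B ∨ ∃ Γ : RightResolver N B, ∀ x, Γ.v (Λ.v x) = Θ.v x) →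
      ∀ Λ' : RightResolver H N, Λ'.v = Λ.v → NoStable N.src N.tgt Λ'.v Λ'.act := by
    intro N Λ hov Λ' hv
    have hov' : OverBase Θ Λ := by
      rcases hov with hB | h
      · exact overBase_of_minimal hB Θ Λ
      · exact h
    exact noStable_of_smallest hΨ hcomm hmin Λ' (hov'.congr hv)
  have hρ : ∀ (N : Graph) (Λ : RightResolver H N),
      (Minimal B ∨ ∃ Γ : RightResolver N B, ∀ x, Γ.v (Λ.v x) = Θ.v x) →
      ¬ Function.Injective Λ.v → ∃ ρ : ℕ, 2 ≤ ρ ∧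
        (∀ (Λ' : RightResolver H N) (J : N.V) (u : List N.E), Λ'.v = Λ.v → N.IsPath J u →
          ρ ≤ {K | ∃ I, Λ'.v I = J ∧ Λ'.Leads I u K}.ncard) ∧
        (∃ (Λ' : RightResolver H N) (J : N.V) (u : List N.E), Λ'.v = Λ.v ∧ N.IsPath J u ∧
          {K | ∃ I, Λ'.v I = J ∧ Λ'.Leads I u K}.ncard = ρ) ∧
        ∀ (pr : N.V → N.V → ℝ) (μ : H.V → ℝ), FairWeights Λ.v pr μ →
          3 * ∑ᶠ x, (splits Λ.v x : ℝ) * share Λ.v μ x ≤ 2 ∧
          (∀ C : Set H.V, C.Nonempty → Collapsible (H := N) Λ.v C →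
            (ρ : ℝ) * (2 * ∑ᶠ z ∈ C, share Λ.v μ z +
              ∑ᶠ x, (splits Λ.v x : ℝ) * share Λ.v μ x) ≤ 2) ∧
          ((∃ x, splits Λ.v x ≠ 0) → ∃ x, splits Λ.v x ≠ 0 ∧
            ∀ C : Set H.V, C.Nonempty → Collapsible (H := N) Λ.v C →
              3 * (2 * ∑ᶠ z ∈ C, share Λ.v μ z +
                ∑ᶠ x, (splits Λ.v x : ℝ) * share Λ.v μ x) ≤ 2 + 6 * share Λ.v μ x) := by
    intro N Λ hov hi
    have hno := hall N Λ hov
    have hne : Nonempty H.V := by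
      by_contra h
      rw [not_nonempty_iff] at h
      exact hi fun x => (h.false x).elim
    obtain ⟨ρ, hρ, Λ₀, hv₀, J₀, u₀, hu₀, hcard⟩ := exists_least Λ hne
    have hle : ∀ (Λ' : RightResolver H N) (J : N.V) (u : List N.E), Λ'.v = Λ.v → N.IsPath J u →
        rank N.src N.tgt Λ'.v Λ'.act ≤ {K | ∃ I, Λ'.v I = J ∧ Λ'.Leads I u K}.ncard := by
      intro Λ' J u hv hu
      obtain ⟨q, rfl⟩ := Λ'.v_surj J
      rw [ends_eq Λ' hu]
      exact rank_le q u ((isPath_iff _ _ _).1 hu)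
    refine ⟨ρ, ?_, fun Λ' J u hv hu => (hρ Λ' hv).trans (hle Λ' J u hv hu),
      ⟨Λ₀, J₀, u₀, hv₀, hu₀, hcard⟩, fun pr μ hf => ?_⟩
    · rw [← hcard]
      exact (two_le_rank_of_not_injective Λ₀.act_typed (Λ₀.conn hH) (hno Λ₀ hv₀)
        (by rw [hv₀]; exact hi)).trans (hle Λ₀ J₀ u₀ hv₀ hu₀)
    · obtain ⟨h1, h2⟩ := bounds_graph Λ hH hno hρ hf
      refine ⟨?_, h2, h1⟩
      by_cases hsp : ∃ x, splits Λ.v x ≠ 0
      · obtain ⟨p, _, hb⟩ := h1 hsp
        obtain ⟨z, hz⟩ := Finite.exists_max (fun x => share Λ.v μ x)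
        have h3 := hb {z} ⟨z, rfl⟩ (collapsible_singleton Λ.v z)
        rw [finsum_mem_singleton] at h3
        have h4 := hz p
        linarith
      · push Not at hsp
        simp only [hsp, Nat.cast_zero, zero_mul, finsum_zero, mul_zero]
        norm_num
  refine ⟨H, Θ, Ψ, hΨ, hcomm, fun hB hi => isBunchy_of_injective hB Θ hi, fun N Λ hov => ?_⟩
  refine ⟨fun I J => ?_, fun hi => hρ N Λ hov hi⟩
  by_cases hi : Function.Injective Λ.v
  · obtain ⟨x, hx⟩ := Λ.v_surj I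
    refine ⟨x, hx, ?_⟩
    rw [Set.ncard_le_one (Set.toFinite _)]
    rintro y ⟨_, hy⟩ z ⟨_, hz⟩
    exact hi (by rw [hy, hz])
  · obtain ⟨ρ, hρ2, _, _, hb⟩ := hρ N Λ hov hi
    refine exists_unsplit hH Λ hρ2 (fun pr μ hf z => ?_) I J
    have := (hb pr μ hf).2.1 {z} ⟨z, rfl⟩ (collapsible_singleton Λ.v z)
    rwa [finsum_mem_singleton] at this

end Pool.Agent.H99.TT
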