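import Pool.Agent.H26.Bunchy.Bound

/-!
# Maximisers of the potential among the triples with an undecided flexible slot

Module of `MP_644d19_co` (two thirds). The word that collapses a set may depend on the colours of
the undecided slots.
-/

set_option autoImplicit false
set_option linter.unusedSectionVars false
set_option linter.unusedVariables false
set_option linter.deprecated false

namespace Pool.Agent.H99.TT

open Pool.Agent.H75.Bunchy Pool.Agent.H26.Bunchy
open scoped Classical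

variable {V K E : Type*} [Fintype V] [Fintype E] {s t : E → K} {σ : V → K} {a : V → E → V}
  {τ : E → E} {pr : E → ℝ} {μ : V → ℝ}

/-- `c` is mapped to one state by a word, whatever the colours outside `B` are; the word may depend
on these colours -/
def Vala (s t : E → K) (σ : V → K) (a : V → E → V) (τ : E → E) (c : Finset V)
    (B : Finset (V × Sym2 E)) (δ : Set (V × Sym2 E)) : Prop :=
  ∃ k, (∀ x ∈ c, σ x = k) ∧ ∀ δ' : Set (V × Sym2 E), (∀ x ∈ B, x ∈ δ' ↔ x ∈ δ) →
    ∃ u, Valid s t k u ∧ ∀ x ∈ c, ∀ y ∈ c, run (tw τ δ' a) x u = run (tw τ δ' a) y u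

lemma ncol_iff {c : Finset V} {B : Finset (V × Sym2 E)} {δ : Set (V × Sym2 E)} {e : E}
    {y : V × Sym2 E} (hy : y ∈ B) : y ∈ ncol s σ a τ c B δ e ↔ y ∈ δ := by
  have : y ∉ news s σ a τ c B e := fun h => (Finset.disjoint_left.1 (news_disj c B e) hy) h
  unfold ncol
  simp [this]

/-- the letter leads the preimage into the set -/
lemma pull_in' {c : Finset V} {B : Finset (V × Sym2 E)} {δ δ' : Set (V × Sym2 E)} {e : E}
    (hδ' : ∀ x ∈ B ∪ news s σ a τ c B e, x ∈ δ' ↔ x ∈ ncol s σ a τ c B δ e) {x : V}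
    (hx : x ∈ pull s σ a τ c B δ e) : s e = σ x ∧ tw τ δ' a x e ∈ c := by
  have hB : ∀ x ∈ B, x ∈ δ' ↔ x ∈ δ := by
    intro x hx
    rw [hδ' x (Finset.mem_union_left _ hx), ncol_iff hx]
  unfold pull at hx
  rw [Finset.mem_filter] at hx
  obtain ⟨_, hsx, hx⟩ := hx
  refine ⟨hsx, ?_⟩
  by_cases hxB : slot τ x e ∈ B
  · rw [if_pos hxB] at hx
    have := hB _ hxB
    unfold tw at hx ⊢
    by_cases h1 : slot τ x e ∈ δ
    · rw [if_pos h1] at hx; rw [if_pos (this.2 h1)]; exact hx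
    · rw [if_neg h1] at hx; rw [if_neg (fun h => h1 (this.1 h))]; exact hx
  · rw [if_neg hxB] at hx
    by_cases hcut : a x e ∈ c ↔ a x (τ e) ∈ c
    · have h1 : a x e ∈ c := by
        rcases hx with h | h
        · exact h
        · exact hcut.2 h
      unfold tw
      split_ifs
      · exact hcut.1 h1
      · exact h1
    · have hn : slot τ x e ∈ news s σ a τ c B e := by
        rw [mem_news]
        unfold cut
        rw [Finset.mem_filter]
        exact ⟨Finset.mem_univ _, hsx, hxB, hcut⟩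
      have h2 := hδ' _ (Finset.mem_union_right _ hn)
      have h3 : slot τ x e ∈ ncol s σ a τ c B δ e ↔ a x e ∉ c := by
        unfold ncol
        simp only [Set.mem_setOf_eq, hn, if_true]
        rfl
      rw [h3] at h2
      unfold tw
      by_cases h4 : a x e ∈ c
      · rw [if_neg (fun h => (h2.1 h) h4)]; exact h4
      · rw [if_pos (h2.2 h4)]
        rcases hx with h | h
        · exact absurd h h4
        · exact h

lemma vala_pull {c : Finset V}
    {B : Finset (V × Sym2 E)} {δ : Set (V × Sym2 E)} (h : Vala s t σ a τ c B δ) {e : E} {z : V}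
    (hz : z ∈ c) (he : t e = σ z) :
    Vala s t σ a τ (pull s σ a τ c B δ e) (B ∪ news s σ a τ c B e)
      (ncol s σ a τ c B δ e) := by
  obtain ⟨k, hk, hcol⟩ := h
  have hkz := hk z hz
  refine ⟨s e, ?_, fun δ' hδ' => ?_⟩
  · intro x hx
    unfold pull at hx
    rw [Finset.mem_filter] at hx
    exact hx.2.1.symm
  · obtain ⟨u, hu, hcol⟩ := hcol δ' fun x hx => by
      rw [hδ' x (Finset.mem_union_left _ hx), ncol_iff hx]
    refine ⟨e :: u, ⟨rfl, by rw [he, hkz]; exact hu⟩, fun x hx y hy => ?_⟩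
    rw [run_cons, run_cons]
    exact hcol _ (pull_in' hδ' hx).2 _ (pull_in' hδ' hy).2

/-- valid triples with the value `M` -/
structure Topa (s t : E → K) (σ : V → K) (a : V → E → V) (τ : E → E) (μ : V → ℝ) (M : ℝ)
    (c : Finset V) (B : Finset (V × Sym2 E)) (δ : Set (V × Sym2 E)) : Prop where
  val : Vala s t σ a τ c B δ
  eq : Phi σ μ c B = M

lemma mass_nonneg (h : Stat s σ a pr μ) (e : E) : 0 ≤ mass σ μ (s e) := by
  unfold mass
  refine Finset.sum_nonneg fun p _ => ?_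
  split_ifs
  · exact (h.mu_pos p).le
  · exact le_rfl

/-- the average identity, with the value `M` subtracted -/
lemma sum_defect (hτ : Swp s t τ) (ha : Typed s t σ a) (h : Stat s σ a pr μ)
    (hpr : ∀ e, pr (τ e) = pr e) {B : Finset (V × Sym2 E)} {δ : Set (V × Sym2 E)}
    {c : Finset V} {k : K} (hk : ∀ x ∈ c, σ x = k) :
    ∑ e, (if t e = k then mass σ μ (s e) * pr e *
      (Phi σ μ c B - Phi σ μ (pull s σ a τ c B δ e) (B ∪ news s σ a τ c B e)) else 0) = 0 := by
  have hav := Phi_average hτ ha h hpr B δ hk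
  have h1 : ∑ e, (if t e = k then mass σ μ (s e) * pr e *
      (Phi σ μ c B - Phi σ μ (pull s σ a τ c B δ e) (B ∪ news s σ a τ c B e)) else 0) =
      Phi σ μ c B * ∑ e, (if t e = k then mass σ μ (s e) * pr e else 0) -
      ∑ e, (if t e = k then mass σ μ (s e) * pr e *
        Phi σ μ (pull s σ a τ c B δ e) (B ∪ news s σ a τ c B e) else 0) := by
    rw [Finset.mul_sum, ← Finset.sum_sub_distrib]
    refine Finset.sum_congr rfl fun e _ => ?_
    split_ifs <;> ring
  rw [h1, hav, h.mass_sum ha]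
  ring

lemma step1 (hτ : Swp s t τ) (ha : Typed s t σ a) (h : Stat s σ a pr μ)
    (hpr : ∀ e, pr (τ e) = pr e) (hsu : ∀ e, ∃ p, s e = σ p)
    {M : ℝ} {B : Finset (V × Sym2 E)} {δ : Set (V × Sym2 E)}
    (hM : ∀ c' B' δ', Vala s t σ a τ c' B' δ' → ¬ flex s σ a τ ⊆ B' → Phi σ μ c' B' ≤ M)
    (hN : ∀ c' B' δ', Vala s t σ a τ c' B' δ' → ¬ flex s σ a τ ⊆ B' → Phi σ μ c' B' = M →
      B'.card ≤ B.card)
    (hE : ∀ c', Topa s t σ a τ μ M c' B δ → ∀ z ∈ c', ∀ e, t e = σ z →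
      ¬ flex s σ a τ ⊆ B ∪ news s σ a τ c' B e)
    {c : Finset V} (hc : Topa s t σ a τ μ M c B δ) {z : V} (hz : z ∈ c) {e : E}
    (he : t e = σ z) : cut s σ a τ c B e = ∅ ∧
      Topa s t σ a τ μ M (Finset.univ.filter fun p => s e = σ p ∧ tw τ δ a p e ∈ c) B δ := by
  obtain ⟨k, hk, -⟩ := hc.val
  have hkz := hk z hz
  have hsum := sum_defect hτ ha h hpr (B := B) (δ := δ) hk
  rw [hc.eq] at hsum
  have hval : ∀ e, t e = k → Vala s t σ a τ (pull s σ a τ c B δ e) (B ∪ news s σ a τ c B e)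
      (ncol s σ a τ c B δ e) := fun e he => vala_pull hc.val hz (by rw [he, hkz])
  have hex : ∀ e, t e = k → ¬ flex s σ a τ ⊆ B ∪ news s σ a τ c B e := fun e he =>
    hE c hc z hz e (by rw [he, hkz])
  rw [Finset.sum_eq_zero_iff_of_nonneg] at hsum
  swap
  · intro e _
    split_ifs with hek
    · refine mul_nonneg (mul_nonneg (mass_nonneg h e) (h.pr_pos e).le) ?_
      have := hM _ _ _ (hval e hek) (hex e hek)
      linarith
    · exact le_rfl
  have hek : t e = k := by rw [he, hkz]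
  obtain ⟨p, hp⟩ := hsu e
  have h1 := hsum e (Finset.mem_univ _)
  rw [if_pos hek] at h1
  have h2 : mass σ μ (s e) * pr e ≠ 0 := by
    rw [hp]
    exact mul_ne_zero (mass_pos h.mu_pos p).ne' (h.pr_pos e).ne'
  have h3 : Phi σ μ (pull s σ a τ c B δ e) (B ∪ news s σ a τ c B e) = M := by
    rcases mul_eq_zero.1 h1 with h | h
    · exact absurd h h2
    · linarith
  have h4 := hN _ _ _ (hval e hek) (hex e hek) h3
  rw [Finset.card_union_of_disjoint (news_disj c B e)] at h4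
  have h5 : news s σ a τ c B e = ∅ := by
    rw [← Finset.card_eq_zero]; omega
  have h6 : cut s σ a τ c B e = ∅ := by
    unfold news at h5
    rwa [Finset.image_eq_empty] at h5
  refine ⟨h6, ?_⟩
  have h7 : ncol s σ a τ c B δ e = δ := by
    unfold ncol
    rw [h5]
    simp
  have h8 : pull s σ a τ c B δ e = Finset.univ.filter fun p => s e = σ p ∧ tw τ δ a p e ∈ c := by
    unfold pull
    refine Finset.filter_congr fun q _ => ?_
    refine and_congr_right fun hq => ?_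
    by_cases hB : slot τ q e ∈ B
    · rw [if_pos hB]
    · rw [if_neg hB]
      have hcut : a q e ∈ c ↔ a q (τ e) ∈ c := by
        by_contra hcon
        have : q ∈ cut s σ a τ c B e := by
          unfold cut
          rw [Finset.mem_filter]
          exact ⟨Finset.mem_univ _, hq, hB, hcon⟩
        rw [h6] at this
        simp at this
      unfold tw
      split_ifs
      · rw [← hcut, or_self, hcut]
      · rw [hcut, or_self]
  have h9 := hval e hek
  rw [h5, Finset.union_empty, h7, h8] at h9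
  rw [h5, Finset.union_empty, h8] at h3
  exact ⟨h9, h3⟩

lemma words1 (hτ : Swp s t τ) (ha : Typed s t σ a) (h : Stat s σ a pr μ)
    (hpr : ∀ e, pr (τ e) = pr e) (hsu : ∀ e, ∃ p, s e = σ p)
    {M : ℝ} (hM0 : 0 < M) {B : Finset (V × Sym2 E)} {δ : Set (V × Sym2 E)}
    (hM : ∀ c' B' δ', Vala s t σ a τ c' B' δ' → ¬ flex s σ a τ ⊆ B' → Phi σ μ c' B' ≤ M)
    (hN : ∀ c' B' δ', Vala s t σ a τ c' B' δ' → ¬ flex s σ a τ ⊆ B' → Phi σ μ c' B' = M →
      B'.card ≤ B.card)
    (hE : ∀ c', Topa s t σ a τ μ M c' B δ → ∀ z ∈ c', ∀ e, t e = σ z →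
      ¬ flex s σ a τ ⊆ B ∪ news s σ a τ c' B e)
    {c : Finset V} (hc : Topa s t σ a τ μ M c B δ) {z : V} (hz : z ∈ c) (v : List E) :
    ∀ j, Valid s t j v → fin t j v = σ z → Topa s t σ a τ μ M (pre σ (tw τ δ a) c v j) B δ := by
  have htw := tw_typed hτ ha δ
  induction v with
  | nil =>
    intro j _ hj
    have : pre σ (tw τ δ a) c [] j = c := by
      obtain ⟨k, hk, -⟩ := hc.val
      ext x
      rw [mem_pre]
      simp only [run_nil]
      constructor
      · rintro ⟨_, h⟩; exact h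
      · intro hx
        refine ⟨?_, hx⟩
        rw [hk x hx]
        rw [fin_nil] at hj
        rw [hj, hk z hz]
    rw [this]; exact hc
  | cons e v ih =>
    rintro j ⟨hj, hv⟩ hf
    have h1 := ih (t e) hv hf
    have h2 : (pre σ (tw τ δ a) c v (t e)).Nonempty := by
      rw [Finset.nonempty_iff_ne_empty]
      intro h0
      have h3 := h1.eq
      rw [h0] at h3
      have := Phi_empty_le (σ := σ) h.mu_pos B
      linarith
    obtain ⟨y, hy⟩ := h2
    have hyt : t e = σ y := (mem_pre.1 hy).1.symm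
    have h3 := (step1 hτ ha h hpr hsu hM hN hE h1 hy hyt).2
    have h4 : pre σ (tw τ δ a) c (e :: v) j =
        Finset.univ.filter fun p => s e = σ p ∧ tw τ δ a p e ∈ pre σ (tw τ δ a) c v (t e) := by
      ext x
      rw [mem_pre, Finset.mem_filter, mem_pre, run_cons]
      constructor
      · rintro ⟨h5, h6⟩
        have h7 : s e = σ x := by rw [hj, h5]
        exact ⟨Finset.mem_univ _, h7, htw x e h7, h6⟩
      · rintro ⟨_, h5, _, h6⟩
        exact ⟨by rw [← h5, hj], h6⟩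
    rw [h4]; exact h3

lemma stable1 (hτ : Swp s t τ) (ha : Typed s t σ a) (hcn : Conn s σ a) (h : Stat s σ a pr μ)
    (hpr : ∀ e, pr (τ e) = pr e) (hsu : ∀ e, ∃ p, s e = σ p)
    {M : ℝ} (hM0 : 0 < M) {B : Finset (V × Sym2 E)} {δ : Set (V × Sym2 E)}
    (hM : ∀ c' B' δ', Vala s t σ a τ c' B' δ' → ¬ flex s σ a τ ⊆ B' → Phi σ μ c' B' ≤ M)
    (hN : ∀ c' B' δ', Vala s t σ a τ c' B' δ' → ¬ flex s σ a τ ⊆ B' → Phi σ μ c' B' = M →
      B'.card ≤ B.card)
    (hE : ∀ c', Topa s t σ a τ μ M c' B δ → ∀ z ∈ c', ∀ e, t e = σ z →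
      ¬ flex s σ a τ ⊆ B ∪ news s σ a τ c' B e)
    {c : Finset V} (hc : Topa s t σ a τ μ M c B δ) {z : V} (hz : z ∈ c) {p : V} {e : E}
    (he : s e = σ p) (hB : slot τ p e ∉ B) :
    Stable s t σ (tw τ δ a) (a p e) (a p (τ e)) := by
  have htw := tw_typed hτ ha δ
  have hte : σ (a p e) = t e := ha p e he
  have hte' : σ (a p (τ e)) = t e := by rw [ha p _ (by rw [hτ.hs]; exact he), hτ.ht]
  refine ⟨by rw [hte, hte'], fun v hv => ?_⟩
  obtain ⟨k, hk, hcol⟩ := hc.val
  obtain ⟨u₀, hu₀, hcol⟩ := hcol δ fun _ _ => Iff.rfl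
  have hX : σ (run (tw τ δ a) (a p e) v) = fin t (σ (a p e)) v := htw.run _ _ hv
  obtain ⟨v', hv', hz'⟩ := exists_word htw (tw_conn hτ hcn δ (run (tw τ δ a) (a p e) v) z)
  rw [hX] at hv'
  have hval : Valid s t (t e) (v ++ v') := by
    rw [valid_append, ← hte]; exact ⟨hv, hv'⟩
  have hrun : run (tw τ δ a) (a p e) (v ++ v') = z := by rw [run_append, hz']
  have hfin : fin t (t e) (v ++ v') = σ z := by
    rw [← hrun, htw.run _ _ (by rw [hte]; exact hval), hte]
  have h1 := words1 hτ ha h hpr hsu hM0 hM hN hE hc hz (v ++ v') (t e) hval hfin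
  have h2 : a p e ∈ pre σ (tw τ δ a) c (v ++ v') (t e) := by
    rw [mem_pre]; exact ⟨hte, by rw [hrun]; exact hz⟩
  have h3 := (step1 hτ ha h hpr hsu hM hN hE h1 h2 hte.symm).1
  have h4 : a p (τ e) ∈ pre σ (tw τ δ a) c (v ++ v') (t e) := by
    by_contra hcon
    have : p ∈ cut s σ a τ (pre σ (tw τ δ a) c (v ++ v') (t e)) B e := by
      unfold cut
      rw [Finset.mem_filter]
      refine ⟨Finset.mem_univ _, he, hB, fun hiff => hcon (hiff.1 h2)⟩
    rw [h3] at this
    simp at this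
  have h5 : run (tw τ δ a) (a p (τ e)) (v ++ v') ∈ c := (mem_pre.1 h4).2
  have h6 := hcol _ hz _ h5
  refine ⟨v' ++ u₀, ?_, ?_⟩
  · rw [valid_append]
    refine ⟨hv', ?_⟩
    have : fin t (fin t (σ (a p e)) v) v' = k := by
      rw [← fin_append, hte, hfin, hk z hz]
    rw [this]; exact hu₀
  · rw [← List.append_assoc, run_append, run_append (u := v ++ v'), hrun]
    exact h6

/-- A state of maximal potential, with all remaining flexible slots decided by one letter. -/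
theorem exists_exit (hτ : Swp s t τ) (ha : Typed s t σ a) (hcn : Conn s σ a)
    (h : Stat s σ a pr μ) (hpr : ∀ e, pr (τ e) = pr e) (hsu : ∀ e, ∃ p, s e = σ p)
    (hno : ∀ δ, NoStable s t σ (tw τ δ a)) (hfl : (flex s σ a τ).Nonempty) :
    ∃ (c : Finset V) (B : Finset (V × Sym2 E)) (δ : Set (V × Sym2 E)) (z : V) (e : E),
      Vala s t σ a τ c B δ ∧ ¬ flex s σ a τ ⊆ B ∧ z ∈ c ∧ t e = σ z ∧
      flex s σ a τ ⊆ B ∪ news s σ a τ c B e ∧
      (∀ c' B' δ', Vala s t σ a τ c' B' δ' → ¬ flex s σ a τ ⊆ B' →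
        Phi σ μ c' B' ≤ Phi σ μ c B) := by
  obtain ⟨x₀, hx₀⟩ := hfl
  have hx₀' := hx₀
  unfold flex at hx₀'
  rw [Finset.mem_filter] at hx₀'
  obtain ⟨_, e₀, he₀, hne₀, hx₀e⟩ := hx₀'
  have hemp : ¬ flex s σ a τ ⊆ ∅ := fun hcon => by
    have := hcon hx₀
    simp at this
  set S : Set (Finset V × Finset (V × Sym2 E) × Set (V × Sym2 E)) :=
    {x | Vala s t σ a τ x.1 x.2.1 x.2.2 ∧ ¬ flex s σ a τ ⊆ x.2.1} with hS
  have hsing : ∀ z : V, ({z}, ∅, ∅) ∈ S := by
    intro z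
    refine ⟨⟨σ z, ?_, ?_⟩, hemp⟩
    · intro x hx
      rw [Finset.mem_singleton] at hx
      rw [hx]
    · intro δ' _
      refine ⟨[], trivial, fun x hx y hy => ?_⟩
      rw [Finset.mem_singleton] at hx hy
      rw [hx, hy]
  obtain ⟨x₁, hx₁, hmax⟩ := Set.exists_max_image S (fun x => Phi σ μ x.1 x.2.1)
    (Set.toFinite _) ⟨_, hsing x₀.1⟩
  set M := Phi σ μ x₁.1 x₁.2.1 with hMdef
  obtain ⟨x₂, hx₂, hmax₂⟩ := Set.exists_max_image {x ∈ S | Phi σ μ x.1 x.2.1 = M}
    (fun x => x.2.1.card) (Set.toFinite _) ⟨x₁, hx₁, rfl⟩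
  obtain ⟨c, B, δ⟩ := x₂
  obtain ⟨⟨hval, hinc⟩, hPhi⟩ := hx₂
  simp only at hval hinc hPhi
  have hM0 : 0 < M := by
    refine lt_of_lt_of_le (wt_pos (σ := σ) h.mu_pos x₀.1) ?_
    have := hmax _ (hsing x₀.1)
    simpa [Phi] using this
  have hM : ∀ c' B' δ', Vala s t σ a τ c' B' δ' → ¬ flex s σ a τ ⊆ B' → Phi σ μ c' B' ≤ M :=
    fun c' B' δ' hv hi => hmax (c', B', δ') ⟨hv, hi⟩
  have hN : ∀ c' B' δ', Vala s t σ a τ c' B' δ' → ¬ flex s σ a τ ⊆ B' → Phi σ μ c' B' = M →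
      B'.card ≤ B.card :=
    fun c' B' δ' hv hi he => hmax₂ (c', B', δ') ⟨⟨hv, hi⟩, he⟩
  by_contra hcon
  push Not at hcon
  have hE : ∀ c', Topa s t σ a τ μ M c' B δ → ∀ z ∈ c', ∀ e, t e = σ z →
      ¬ flex s σ a τ ⊆ B ∪ news s σ a τ c' B e := by
    intro c' hc' z hz e he hsub
    obtain ⟨c'', B'', δ'', hv, hi, hlt⟩ := hcon c' B δ z e hc'.val hinc hz he hsub
    have := hM c'' B'' δ'' hv hi
    rw [hc'.eq] at hlt
    linarith
  have hne : c.Nonempty := by
    rw [Finset.nonempty_iff_ne_empty]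
    rintro rfl
    have := Phi_empty_le (σ := σ) h.mu_pos B
    linarith
  obtain ⟨z, hz⟩ := hne
  rw [Finset.not_subset] at hinc
  obtain ⟨x, hx, hxB⟩ := hinc
  unfold flex at hx
  rw [Finset.mem_filter] at hx
  obtain ⟨_, e, he, hne, hxe⟩ := hx
  refine hne (hno δ _ _ (stable1 hτ ha hcn h hpr hsu hM0 hM hN hE ⟨hval, hPhi⟩ hz he ?_))
  rw [← hxe]
  exact hxB

end Pool.Agent.H99.TT
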