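import Pool.Agent.H99.TT.Nsf
import Pool.Agent.H99.TT.Ada

/-!
# The bound `2 / 3`

Module of `MP_644d19_co` (two thirds).
-/

set_option autoImplicit false
set_option linter.unusedSectionVars false
set_option linter.unusedVariables false
set_option linter.deprecated false

namespace Pool.Agent.H99.TT

open Pool.Agent.H75.Bunchy Pool.Agent.H26.Bunchy
open scoped Classical

variable {V K E : Type*} [Fintype V] [Fintype E] {s t : E → K} {σ : V → K} {a : V → E → V}
  {τ : E → E} {pr : E → ℝ} {μ : V → ℝ}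

lemma coll_of_vala {c : Finset V} {B : Finset (V × Sym2 E)} {δ : Set (V × Sym2 E)}
    (h : Vala s t σ a τ c B δ) : Coll s t σ (tw τ δ a) c := by
  obtain ⟨k, hk, hcol⟩ := h
  obtain ⟨u, hu, hcol⟩ := hcol δ fun _ _ => Iff.rfl
  exact ⟨k, hk, u, hu, hcol⟩

/-- exchange of one slot -/
def exch (γ : Set (V × Sym2 E)) (y : V × Sym2 E) : Set (V × Sym2 E) :=
  {x | if x = y then x ∉ γ else x ∈ γ}

lemma mem_exch_self (γ : Set (V × Sym2 E)) (y : V × Sym2 E) : y ∈ exch γ y ↔ y ∉ γ := by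
  unfold exch; simp

lemma mem_exch_ne (γ : Set (V × Sym2 E)) {x y : V × Sym2 E} (h : x ≠ y) :
    x ∈ exch γ y ↔ x ∈ γ := by
  unfold exch; simp [h]

/-- rank two is followed by rank at least three -/
lemma three_le_rank (hτ : Swp s t τ) (ha : Typed s t σ a) (hcn : Conn s σ a)
    (h : Stat s σ a pr μ) (hpr : ∀ e, pr (τ e) = pr e)
    (hno : ∀ δ, NoStable s t σ (tw τ δ a)) {p₀ : V} {e : E} (he : s e = σ p₀)
    (hne : a p₀ e ≠ a p₀ (τ e)) (γ : Set (V × Sym2 E)) (hr : rank s t σ (tw τ γ a) = 2) :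
    3 ≤ rank s t σ (tw τ (exch γ (slot τ p₀ e)) a) := by
  set γ' := exch γ (slot τ p₀ e) with hγ'
  have h2 : 2 ≤ rank s t σ (tw τ γ' a) :=
    two_le_rank (tw_typed hτ ha γ') (tw_conn hτ hcn γ') (hno γ') (hτ.hs e) (hτ.ht e) he
      (tw_ne hτ γ' hne)
  by_contra hlt
  have h2' : rank s t σ (tw τ γ' a) = 2 := by omega
  have hs : slot τ p₀ (τ e) = slot τ p₀ e := slot_tau hτ p₀ e
  refine nsf22 (b := tw τ γ a) (b' := tw τ γ' a) (e1 := e) (e2 := τ e) (x₀ := p₀) (hτ.hs e)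
    (hτ.ht e) he (tw_typed hτ ha γ) (tw_conn hτ hcn γ) (h.tw hτ hpr γ) (hno γ)
    (tw_typed hτ ha γ') (tw_conn hτ hcn γ') (h.tw hτ hpr γ') (hno γ') ?_ ?_ ?_ (tw_ne hτ γ hne)
    hr h2'
  · intro p e' _ hpe
    have hsl : slot τ p e' ≠ slot τ p₀ e := fun hcon => by
      obtain ⟨h3, h4⟩ := slot_eq hcon
      exact hpe ⟨h3, h4⟩
    have := mem_exch_ne γ hsl
    unfold tw
    by_cases h5 : slot τ p e' ∈ γ
    · rw [if_pos h5, if_pos (this.2 h5)]
    · rw [if_neg h5, if_neg (fun h6 => h5 (this.1 h6))]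
  · rw [tw_tau hτ]
    have := mem_exch_self γ (slot τ p₀ e)
    unfold tw
    by_cases h5 : slot τ p₀ e ∈ γ
    · rw [if_pos h5, if_neg (fun h6 => this.1 h6 h5)]
    · rw [if_neg h5, if_pos (this.2 h5)]
  · rw [tw_tau hτ]
    have := mem_exch_self γ (slot τ p₀ e)
    unfold tw
    by_cases h5 : slot τ p₀ e ∈ γ
    · rw [if_pos h5, if_neg (fun h6 => this.1 h6 h5)]
    · rw [if_neg h5, if_pos (this.2 h5)]

/-- a preimage has weight at most `1 / ρ` -/
lemma child_rank (hτ : Swp s t τ) (ha : Typed s t σ a) (hcn : Conn s σ a)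
    (h : Stat s σ a pr μ) (hpr : ∀ e, pr (τ e) = pr e) (hsu : ∀ e, ∃ p, s e = σ p)
    {ρ : ℕ} (hρ : ∀ δ, ρ ≤ rank s t σ (tw τ δ a)) {c : Finset V} {B : Finset (V × Sym2 E)}
    {δ : Set (V × Sym2 E)} (hv : Vala s t σ a τ c B δ) (z : V) :
    (ρ : ℝ) * ∑ p ∈ c, wt σ μ p ≤ 1 := by
  have h0 : 0 ≤ ∑ p ∈ c, wt σ μ p := Finset.sum_nonneg fun p _ => (wt_pos h.mu_pos p).le
  have hr := rank_mul_le (tw_typed hτ ha δ) (tw_conn hτ hcn δ) (h.tw hτ hpr δ) hsu
    (coll_of_vala hv) z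
  have h2 : (ρ : ℝ) ≤ rank s t σ (tw τ δ a) := by exact_mod_cast hρ δ
  exact (mul_le_mul_of_nonneg_right h2 h0).trans hr

/-- a preimage at which a flexible slot is decided has weight at most `1 / 3` plus the weight of the
state of this slot -/
lemma child_third (hτ : Swp s t τ) (ha : Typed s t σ a) (hcn : Conn s σ a)
    (h : Stat s σ a pr μ) (hpr : ∀ e, pr (τ e) = pr e) (hsu : ∀ e, ∃ p, s e = σ p)
    (hno : ∀ δ, NoStable s t σ (tw τ δ a)) {c : Finset V} {B : Finset (V × Sym2 E)}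
    {δ : Set (V × Sym2 E)} (hv : Vala s t σ a τ c B δ) {z : V} {e : E} (hz : z ∈ c)
    (hte : t e = σ z) {p₀ : V} (hp₀ : p₀ ∈ cut s σ a τ c B e) :
    3 * ∑ p ∈ pull s σ a τ c B δ e, wt σ μ p ≤ 1 + 3 * wt σ μ p₀ := by
  have hp₀' := hp₀
  unfold cut at hp₀'
  rw [Finset.mem_filter] at hp₀'
  obtain ⟨_, hsp, hslB, hcut⟩ := hp₀'
  have hne : a p₀ e ≠ a p₀ (τ e) := fun hcon => hcut (by rw [hcon])
  have hcv := vala_pull hv hz hte
  set γ := ncol s σ a τ c B δ e with hγ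
  have hwp : 0 < wt σ μ p₀ := wt_pos h.mu_pos p₀
  have hpull0 : 0 ≤ ∑ p ∈ pull s σ a τ c B δ e, wt σ μ p :=
    Finset.sum_nonneg fun p _ => (wt_pos h.mu_pos p).le
  have h2 : 2 ≤ rank s t σ (tw τ γ a) :=
    two_le_rank (tw_typed hτ ha γ) (tw_conn hτ hcn γ) (hno γ) (hτ.hs e) (hτ.ht e) hsp
      (tw_ne hτ γ hne)
  by_cases h3 : 3 ≤ rank s t σ (tw τ γ a)
  · have hr := rank_mul_le (tw_typed hτ ha γ) (tw_conn hτ hcn γ) (h.tw hτ hpr γ) hsu
      (coll_of_vala hcv) z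
    have h3' : (3 : ℝ) ≤ rank s t σ (tw τ γ a) := by exact_mod_cast h3
    have := mul_le_mul_of_nonneg_right h3' hpull0
    linarith
  · have hr2 : rank s t σ (tw τ γ a) = 2 := by omega
    have h3 := three_le_rank hτ ha hcn h hpr hno hsp hne γ hr2
    set γ' := exch γ (slot τ p₀ e) with hγ'
    obtain ⟨k, hk, hcol⟩ := hv
    have hkz : t e = k := by rw [hte, hk z hz]
    have hBγ' : ∀ y ∈ B, y ∈ γ' ↔ y ∈ δ := by
      intro y hy
      rw [← ncol_iff (s := s) (σ := σ) (a := a) (τ := τ) (c := c) (δ := δ) (e := e) hy]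
      refine mem_exch_ne γ fun hcon => hslB ?_
      rw [← hcon]; exact hy
    obtain ⟨u, hu, hcol⟩ := hcol γ' hBγ'
    have hvalid : Valid s t (s e) (e :: u) := ⟨rfl, by rw [hkz]; exact hu⟩
    have hpin : ∀ x ∈ pull s σ a τ c B δ e, s e = σ x ∧ tw τ γ a x e ∈ c := fun x hx =>
      pull_in' (δ' := γ) (fun _ _ => Iff.rfl) hx
    have hin : ∀ x ∈ (pull s σ a τ c B δ e).erase p₀, tw τ γ' a x e ∈ c := by
      intro x hx
      rw [Finset.mem_erase] at hx
      have h5 := (hpin x hx.2).2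
      have hsl : slot τ x e ≠ slot τ p₀ e := fun hcon => hx.1 (slot_eq hcon).1
      have h6 := mem_exch_ne γ hsl
      unfold tw at h5 ⊢
      by_cases h7 : slot τ x e ∈ γ
      · rw [if_pos h7] at h5
        rw [if_pos (h6.2 h7)]; exact h5
      · rw [if_neg h7] at h5
        rw [if_neg (fun h8 => h7 (h6.1 h8))]; exact h5
    have hcoll : Coll s t σ (tw τ γ' a) ((pull s σ a τ c B δ e).erase p₀) := by
      refine ⟨s e, fun x hx => (hpin x (Finset.mem_of_mem_erase hx)).1.symm, e :: u, hvalid,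
        fun x hx y hy => ?_⟩
      rw [run_cons, run_cons]
      exact hcol _ (hin x hx) _ (hin y hy)
    have hr := rank_mul_le (tw_typed hτ ha γ') (tw_conn hτ hcn γ') (h.tw hτ hpr γ') hsu hcoll z
    have h3' : (3 : ℝ) ≤ rank s t σ (tw τ γ' a) := by exact_mod_cast h3
    have h0 : 0 ≤ ∑ p ∈ (pull s σ a τ c B δ e).erase p₀, wt σ μ p :=
      Finset.sum_nonneg fun p _ => (wt_pos h.mu_pos p).le
    have h7 := mul_le_mul_of_nonneg_right h3' h0
    have h8 : ∑ p ∈ pull s σ a τ c B δ e, wt σ μ p ≤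
        ∑ p ∈ (pull s σ a τ c B δ e).erase p₀, wt σ μ p + wt σ μ p₀ := by
      by_cases hp : p₀ ∈ pull s σ a τ c B δ e
      · rw [Finset.sum_erase_add _ _ hp]
      · rw [Finset.erase_eq_of_notMem hp]
        linarith
    linarith

/-- **Two thirds.** If no colouring has a nontrivial stable pair and there is a flexible slot, then
some flexible slot `x` satisfies: twice the weight of a set that can be collapsed in every colouring
plus the weight of the flexible slots is at most `2 / 3` plus twice the weight of the state of `x`,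
and it is at most `2 / ρ` if all ranks are at least `ρ`. -/
theorem both_bound (hτ : Swp s t τ) (ha : Typed s t σ a) (hcn : Conn s σ a)
    (h : Stat s σ a pr μ) (hpr : ∀ e, pr (τ e) = pr e) (hsu : ∀ e, ∃ p, s e = σ p)
    (hno : ∀ δ, NoStable s t σ (tw τ δ a)) (hfl : (flex s σ a τ).Nonempty) :
    ∃ x ∈ flex s σ a τ, ∀ c₀ : Finset V, Vala s t σ a τ c₀ ∅ ∅ →
      3 * (2 * ∑ p ∈ c₀, wt σ μ p + ∑ y ∈ flex s σ a τ, wt σ μ y.1) ≤ 2 + 6 * wt σ μ x.1 ∧
      ∀ ρ : ℕ, (∀ δ, ρ ≤ rank s t σ (tw τ δ a)) →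
        (ρ : ℝ) * (2 * ∑ p ∈ c₀, wt σ μ p + ∑ y ∈ flex s σ a τ, wt σ μ y.1) ≤ 2 := by
  obtain ⟨c, B, δ, z, e, hv, hinc, hz, hte, hsub, hmax⟩ :=
    exists_exit hτ ha hcn h hpr hsu hno hfl
  have hemp : ¬ flex s σ a τ ⊆ ∅ := fun hcon => by
    obtain ⟨x, hx⟩ := hfl
    have := hcon hx
    simp at this
  -- a state with a slot decided by `e`
  have hinc' := hinc
  rw [Finset.not_subset] at hinc'
  obtain ⟨x, hx, hxB⟩ := hinc'
  have hxn : x ∈ news s σ a τ c B e := by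
    rcases Finset.mem_union.1 (hsub hx) with h1 | h1
    · exact absurd h1 hxB
    · exact h1
  have hxn' := hxn
  unfold news at hxn'
  rw [Finset.mem_image] at hxn'
  obtain ⟨p₀, hp₀, rfl⟩ := hxn'
  have hp₀' := hp₀
  unfold cut at hp₀'
  rw [Finset.mem_filter] at hp₀'
  obtain ⟨_, hsp, hslB, hcut⟩ := hp₀'
  have hne : a p₀ e ≠ a p₀ (τ e) := fun hcon => hcut (by rw [hcon])
  have heτ : τ e ≠ e := fun hcon => hne (by rw [hcon])
  refine ⟨_, hx, fun c₀ hc₀ => ?_⟩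
  have hfst : (slot τ p₀ e).1 = p₀ := rfl
  rw [hfst]
  obtain ⟨k, hk, -⟩ := id hv
  have hkz := hk z hz
  have hek : t e = k := by rw [hte, hkz]
  have hcutτ : ∀ p, p ∈ cut s σ a τ c B (τ e) ↔ p ∈ cut s σ a τ c B e := by
    intro p
    unfold cut
    rw [Finset.mem_filter, Finset.mem_filter, hτ.hs, slot_tau hτ, hτ.inv]
    refine and_congr_right fun _ => and_congr_right fun _ => and_congr_right fun _ => ?_
    exact not_congr ⟨fun h => h.symm, fun h => h.symm⟩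
  have hp₀τ : p₀ ∈ cut s σ a τ c B (τ e) := (hcutτ p₀).2 hp₀
  have hnewsτ : news s σ a τ c B (τ e) = news s σ a τ c B e := by
    unfold news
    ext y
    rw [Finset.mem_image, Finset.mem_image]
    constructor
    · rintro ⟨p, hp, rfl⟩; exact ⟨p, (hcutτ p).1 hp, (slot_tau hτ p e).symm⟩
    · rintro ⟨p, hp, rfl⟩; exact ⟨p, (hcutτ p).2 hp, slot_tau hτ p e⟩
  -- the two children
  have hc1 := child_third hτ ha hcn h hpr hsu hno hv hz hte hp₀
  have hc2 := child_third hτ ha hcn h hpr hsu hno hv hz (e := τ e) (by rw [hτ.ht, hte]) hp₀τ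
  -- the other letters decide nothing
  have hother : ∀ e', t e' = k → e' ≠ e → e' ≠ τ e →
      Phi σ μ (pull s σ a τ c B δ e') (B ∪ news s σ a τ c B e') ≤ Phi σ μ c B := by
    intro e' he' h1 h2
    have hval' := vala_pull hv hz (e := e') (by rw [he', hkz])
    have hn : news s σ a τ c B e' = ∅ := by
      rw [Finset.eq_empty_iff_forall_notMem]
      intro y hy
      have hyB : y ∉ B := fun hyB => Finset.disjoint_left.1 (news_disj c B e') hyB hy
      unfold news at hy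
      rw [Finset.mem_image] at hy
      obtain ⟨p, hp, rfl⟩ := hy
      unfold cut at hp
      rw [Finset.mem_filter] at hp
      obtain ⟨_, hsp', _, hcut'⟩ := hp
      have hfx : slot τ p e' ∈ flex s σ a τ := by
        unfold flex
        rw [Finset.mem_filter]
        refine ⟨Finset.mem_univ _, e', hsp', fun hcon => hcut' ?_, rfl⟩
        change a p e' = a p (τ e') at hcon
        rw [hcon]
      rcases Finset.mem_union.1 (hsub hfx) with h3 | h3
      · exact hyB h3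
      · unfold news at h3
        rw [Finset.mem_image] at h3
        obtain ⟨q, _, hq⟩ := h3
        rcases (slot_eq hq).2 with h4 | h4
        · exact h1 h4.symm
        · apply h2
          rw [h4, hτ.inv]
    refine hmax _ _ _ hval' ?_
    rw [hn, Finset.union_empty]
    exact hinc
  have hsum := sum_defect hτ ha h hpr (B := B) (δ := δ) hk
  set D : E → ℝ := fun e => if t e = k then mass σ μ (s e) * pr e *
      (Phi σ μ c B - Phi σ μ (pull s σ a τ c B δ e) (B ∪ news s σ a τ c B e)) else 0 with hD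
  have hDpos : ∀ e', e' ∉ ({e, τ e} : Finset E) → 0 ≤ D e' := by
    intro e' he'
    rw [Finset.mem_insert, Finset.mem_singleton, not_or] at he'
    simp only [hD]
    split_ifs with h1
    · refine mul_nonneg (mul_nonneg (mass_nonneg h e') (h.pr_pos e').le) ?_
      have := hother e' h1 he'.1 he'.2
      linarith
    · exact le_rfl
  have hD2 : D e + D (τ e) ≤ 0 := by
    have h1 : ∑ e', D e' = ∑ e' ∈ ({e, τ e} : Finset E), D e' +
        ∑ e' ∈ Finset.univ \ ({e, τ e} : Finset E), D e' := by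
      rw [add_comm]
      exact (Finset.sum_sdiff (Finset.subset_univ _)).symm
    have h2 : ∑ e' ∈ ({e, τ e} : Finset E), D e' = D e + D (τ e) := by
      rw [Finset.sum_pair heτ.symm]
    have h3 : 0 ≤ ∑ e' ∈ Finset.univ \ ({e, τ e} : Finset E), D e' :=
      Finset.sum_nonneg fun e' he' => hDpos e' (Finset.mem_sdiff.1 he').2
    rw [hsum, h2] at h1
    linarith
  have hm : 0 < mass σ μ (s e) * pr e := by
    rw [hsp]
    exact mul_pos (mass_pos h.mu_pos p₀) (h.pr_pos e)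
  have hD3 : 2 * Phi σ μ c B ≤ Phi σ μ (pull s σ a τ c B δ e) (B ∪ news s σ a τ c B e) +
      Phi σ μ (pull s σ a τ c B δ (τ e)) (B ∪ news s σ a τ c B (τ e)) := by
    simp only [hD, hτ.ht, hek, if_true, hτ.hs, hpr] at hD2
    rw [← mul_add] at hD2
    by_contra hlt
    push Not at hlt
    have := mul_pos hm (show 0 < (Phi σ μ c B - Phi σ μ (pull s σ a τ c B δ e)
      (B ∪ news s σ a τ c B e)) + (Phi σ μ c B - Phi σ μ (pull s σ a τ c B δ (τ e))
      (B ∪ news s σ a τ c B (τ e))) by linarith)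
    linarith
  rw [hnewsτ] at hD3
  have hW : ∑ y ∈ flex s σ a τ, wt σ μ y.1 ≤ ∑ y ∈ B ∪ news s σ a τ c B e, wt σ μ y.1 :=
    Finset.sum_le_sum_of_subset_of_nonneg hsub fun y _ _ => (wt_pos h.mu_pos _).le
  have hM0 : ∑ p ∈ c₀, wt σ μ p ≤ Phi σ μ c B := by
    have := hmax c₀ ∅ ∅ hc₀ hemp
    simpa [Phi] using this
  unfold Phi at hD3 hM0
  refine ⟨by linarith, fun ρ hρ => ?_⟩
  have hr1 := child_rank hτ ha hcn h hpr hsu hρ (vala_pull hv hz hte) z
  have hr2 := child_rank hτ ha hcn h hpr hsu hρ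
    (vala_pull hv hz (e := τ e) (by rw [hτ.ht, hte])) z
  have h9 : 2 * ∑ p ∈ c₀, wt σ μ p + ∑ y ∈ flex s σ a τ, wt σ μ y.1 ≤
      ∑ p ∈ pull s σ a τ c B δ e, wt σ μ p + ∑ p ∈ pull s σ a τ c B δ (τ e), wt σ μ p := by
    linarith
  have h10 := mul_le_mul_of_nonneg_left h9 (Nat.cast_nonneg (α := ℝ) ρ)
  linarith

/-- without flexible slots -/
theorem rank_bound_no_flex (hτ : Swp s t τ) (ha : Typed s t σ a) (hcn : Conn s σ a)
    (h : Stat s σ a pr μ) (hpr : ∀ e, pr (τ e) = pr e) (hsu : ∀ e, ∃ p, s e = σ p)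
    (hfl : ¬ (flex s σ a τ).Nonempty) {ρ : ℕ} (hρ : ∀ δ, ρ ≤ rank s t σ (tw τ δ a))
    {c₀ : Finset V} (hc₀ : Vala s t σ a τ c₀ ∅ ∅) (z : V) :
    (ρ : ℝ) * (2 * ∑ p ∈ c₀, wt σ μ p + ∑ y ∈ flex s σ a τ, wt σ μ y.1) ≤ 2 := by
  have h1 := child_rank hτ ha hcn h hpr hsu hρ hc₀ z
  rw [Finset.not_nonempty_iff_eq_empty] at hfl
  rw [hfl, Finset.sum_empty]
  linarith

end Pool.Agent.H99.TT
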