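import Pool.Agent.H99.TT.Both

/-!
# The bound with an error term of one or two states

Module of `MP_644d19_co` (bunch structure).
-/

set_option autoImplicit false
set_option linter.unusedSectionVars false
set_option linter.unusedVariables false
set_option linter.deprecated false

namespace Pool.Agent.H99.TT

open Pool.Agent.H75.Bunchy Pool.Agent.H26.Bunchy
open scoped Classical

variable {V K E : Type*} [Fintype V] [Fintype E] {s t : E → K} {σ : V → K} {a : V → E → V}
  {τ : E → E} {pr : E → ℝ} {μ : V → ℝ}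

lemma third_of_rank (hτ : Swp s t τ) (ha : Typed s t σ a) (hcn : Conn s σ a)
    (h : Stat s σ a pr μ) (hpr : ∀ e, pr (τ e) = pr e) (hsu : ∀ e, ∃ p, s e = σ p)
    {c : Finset V} {B : Finset (V × Sym2 E)} {δ : Set (V × Sym2 E)}
    (h3 : 3 ≤ rank s t σ (tw τ δ a)) (hv : Vala s t σ a τ c B δ) (z : V) :
    3 * ∑ p ∈ c, wt σ μ p ≤ 1 := by
  have h0 : 0 ≤ ∑ p ∈ c, wt σ μ p := Finset.sum_nonneg fun p _ => (wt_pos h.mu_pos p).le
  have hr := rank_mul_le (tw_typed hτ ha δ) (tw_conn hτ hcn δ) (h.tw hτ hpr δ) hsu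
    (coll_of_vala hv) z
  have h2 : (3 : ℝ) ≤ rank s t σ (tw τ δ a) := by exact_mod_cast h3
  exact (mul_le_mul_of_nonneg_right h2 h0).trans hr

/-- if one slot is decided, the two preimages belong to colourings that differ in this slot -/
lemma ncol_tau (hτ : Swp s t τ) {c : Finset V} {B : Finset (V × Sym2 E)} {δ : Set (V × Sym2 E)}
    {e : E} {p₀ : V} (hp₀ : p₀ ∈ cut s σ a τ c B e) (hone : ∀ q ∈ cut s σ a τ c B e, q = p₀)
    (hnews : news s σ a τ c B (τ e) = news s σ a τ c B e) :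
    ncol s σ a τ c B δ (τ e) = exch (ncol s σ a τ c B δ e) (slot τ p₀ e) := by
  have hmem : ∀ x, x ∈ news s σ a τ c B e ↔ x = slot τ p₀ e := by
    intro x
    unfold news
    rw [Finset.mem_image]
    constructor
    · rintro ⟨q, hq, rfl⟩; rw [hone q hq]
    · rintro rfl; exact ⟨p₀, hp₀, rfl⟩
  unfold cut at hp₀
  rw [Finset.mem_filter] at hp₀
  obtain ⟨_, _, _, hcut⟩ := hp₀
  ext x
  by_cases hx : x = slot τ p₀ e
  · subst hx
    rw [mem_exch_self]
    unfold ncol
    rw [Set.mem_setOf_eq, Set.mem_setOf_eq, if_pos (by rw [hnews, hmem]),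
      if_pos (by rw [hmem])]
    change a p₀ (τ e) ∉ c ↔ ¬ a p₀ e ∉ c
    by_cases h1 : a p₀ e ∈ c
    · by_cases h2 : a p₀ (τ e) ∈ c
      · exact absurd ⟨fun _ => h2, fun _ => h1⟩ hcut
      · simp [h1, h2]
    · by_cases h2 : a p₀ (τ e) ∈ c
      · simp [h1, h2]
      · exact absurd ⟨fun h => absurd h h1, fun h => absurd h h2⟩ hcut
  · rw [mem_exch_ne _ hx]
    unfold ncol
    rw [Set.mem_setOf_eq, Set.mem_setOf_eq, if_neg (by rw [hnews, hmem]; exact hx),
      if_neg (by rw [hmem]; exact hx)]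

/-- **Two thirds, with a smaller error term.** If no colouring has a nontrivial stable pair and there
is a flexible slot, then for a set `D` of one or two states with flexible slots at one letter: twice
the weight of a set that can be collapsed in every colouring plus the weight of the flexible slots is
at most `2 / 3` plus the weight of `D`, and it is at most `2 / ρ` if all ranks are at least `ρ`. -/
theorem pair_bound (hτ : Swp s t τ) (ha : Typed s t σ a) (hcn : Conn s σ a)
    (h : Stat s σ a pr μ) (hpr : ∀ e, pr (τ e) = pr e) (hsu : ∀ e, ∃ p, s e = σ p)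
    (hno : ∀ δ, NoStable s t σ (tw τ δ a)) (hfl : (flex s σ a τ).Nonempty) :
    ∃ (D : Finset V) (e : E), D.Nonempty ∧ D.card ≤ 2 ∧
      (∀ p ∈ D, s e = σ p ∧ a p e ≠ a p (τ e)) ∧ ∀ c₀ : Finset V, Vala s t σ a τ c₀ ∅ ∅ →
      3 * (2 * ∑ p ∈ c₀, wt σ μ p + ∑ y ∈ flex s σ a τ, wt σ μ y.1) ≤
        2 + 3 * ∑ p ∈ D, wt σ μ p ∧
      ∀ ρ : ℕ, (∀ δ, ρ ≤ rank s t σ (tw τ δ a)) →
        (ρ : ℝ) * (2 * ∑ p ∈ c₀, wt σ μ p + ∑ y ∈ flex s σ a τ, wt σ μ y.1) ≤ 2 := by
  obtain ⟨c, B, δ, z, e, hv, hinc, hz, hte, hsub, hmax⟩ :=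
    exists_exit hτ ha hcn h hpr hsu hno hfl
  have hemp : ¬ flex s σ a τ ⊆ ∅ := fun hcon => by
    obtain ⟨x, hx⟩ := hfl
    have := hcon hx
    simp at this
  -- a state with a slot decided by `e`
  have hinc' := hinc
  rw [Finset.not_subset] at hinc'
  obtain ⟨x, hx, hxB⟩ := hinc'
  have hxn : x ∈ news s σ a τ c B e := by
    rcases Finset.mem_union.1 (hsub hx) with h1 | h1
    · exact absurd h1 hxB
    · exact h1
  have hxn' := hxn
  unfold news at hxn'
  rw [Finset.mem_image] at hxn'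
  obtain ⟨p₀, hp₀, rfl⟩ := hxn'
  have hp₀' := hp₀
  unfold cut at hp₀'
  rw [Finset.mem_filter] at hp₀'
  obtain ⟨_, hsp, hslB, hcut⟩ := hp₀'
  have hne : a p₀ e ≠ a p₀ (τ e) := fun hcon => hcut (by rw [hcon])
  have heτ : τ e ≠ e := fun hcon => hne (by rw [hcon])
  have hcutne : ∀ q ∈ cut s σ a τ c B e, s e = σ q ∧ a q e ≠ a q (τ e) := by
    intro q hq
    unfold cut at hq
    rw [Finset.mem_filter] at hq
    obtain ⟨_, hsq, _, hcutq⟩ := hq
    exact ⟨hsq, fun hcon => hcutq (by rw [hcon])⟩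
  obtain ⟨k, hk, -⟩ := id hv
  have hkz := hk z hz
  have hek : t e = k := by rw [hte, hkz]
  have hcutτ : ∀ p, p ∈ cut s σ a τ c B (τ e) ↔ p ∈ cut s σ a τ c B e := by
    intro p
    unfold cut
    rw [Finset.mem_filter, Finset.mem_filter, hτ.hs, slot_tau hτ, hτ.inv]
    refine and_congr_right fun _ => and_congr_right fun _ => and_congr_right fun _ => ?_
    exact not_congr ⟨fun h => h.symm, fun h => h.symm⟩
  have hp₀τ : p₀ ∈ cut s σ a τ c B (τ e) := (hcutτ p₀).2 hp₀
  have hnewsτ : news s σ a τ c B (τ e) = news s σ a τ c B e := by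
    unfold news
    ext y
    rw [Finset.mem_image, Finset.mem_image]
    constructor
    · rintro ⟨p, hp, rfl⟩; exact ⟨p, (hcutτ p).1 hp, (slot_tau hτ p e).symm⟩
    · rintro ⟨p, hp, rfl⟩; exact ⟨p, (hcutτ p).2 hp, slot_tau hτ p e⟩
  -- the two children
  obtain ⟨D, hDne, hDcard, hDcut, hc12⟩ : ∃ D : Finset V, D.Nonempty ∧ D.card ≤ 2 ∧
      (∀ q ∈ D, q ∈ cut s σ a τ c B e) ∧
      3 * ∑ p ∈ pull s σ a τ c B δ e, wt σ μ p + 3 * ∑ p ∈ pull s σ a τ c B δ (τ e), wt σ μ p ≤
        2 + 3 * ∑ p ∈ D, wt σ μ p := by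
    have hc1 := child_third hτ ha hcn h hpr hsu hno hv hz hte hp₀
    by_cases hq : ∃ q ∈ cut s σ a τ c B e, q ≠ p₀
    · obtain ⟨q, hq, hqp⟩ := hq
      have hc2 := child_third hτ ha hcn h hpr hsu hno hv hz (e := τ e) (by rw [hτ.ht, hte])
        ((hcutτ q).2 hq)
      refine ⟨{p₀, q}, ⟨p₀, by simp⟩, Finset.card_le_two, ?_, ?_⟩
      · intro x hx
        rw [Finset.mem_insert, Finset.mem_singleton] at hx
        rcases hx with rfl | rfl
        · exact hp₀
        · exact hq
      · rw [Finset.sum_pair hqp.symm]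
        linarith
    · push Not at hq
      refine ⟨{p₀}, ⟨p₀, by simp⟩, by simp, ?_, ?_⟩
      · intro x hx
        rw [Finset.mem_singleton] at hx
        rw [hx]; exact hp₀
      · rw [Finset.sum_singleton]
        by_cases h3 : 3 ≤ rank s t σ (tw τ (ncol s σ a τ c B δ e) a)
        · have hc1' := third_of_rank hτ ha hcn h hpr hsu h3 (vala_pull hv hz hte) z
          have hc2 := child_third hτ ha hcn h hpr hsu hno hv hz (e := τ e)
            (by rw [hτ.ht, hte]) hp₀τ
          linarith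
        · have h2 : 2 ≤ rank s t σ (tw τ (ncol s σ a τ c B δ e) a) :=
            two_le_rank (tw_typed hτ ha _) (tw_conn hτ hcn _) (hno _) (hτ.hs e) (hτ.ht e) hsp
              (tw_ne hτ _ hne)
          have h4 := three_le_rank hτ ha hcn h hpr hno hsp hne (ncol s σ a τ c B δ e) (by omega)
          rw [← ncol_tau hτ hp₀ hq hnewsτ] at h4
          have hc2 := third_of_rank hτ ha hcn h hpr hsu h4
            (vala_pull hv hz (e := τ e) (by rw [hτ.ht, hte])) z
          linarith
  refine ⟨D, e, hDne, hDcard, fun p hp => hcutne p (hDcut p hp), fun c₀ hc₀ => ?_⟩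
  -- the other letters decide nothing
  have hother : ∀ e', t e' = k → e' ≠ e → e' ≠ τ e →
      Phi σ μ (pull s σ a τ c B δ e') (B ∪ news s σ a τ c B e') ≤ Phi σ μ c B := by
    intro e' he' h1 h2
    have hval' := vala_pull hv hz (e := e') (by rw [he', hkz])
    have hn : news s σ a τ c B e' = ∅ := by
      rw [Finset.eq_empty_iff_forall_notMem]
      intro y hy
      have hyB : y ∉ B := fun hyB => Finset.disjoint_left.1 (news_disj c B e') hyB hy
      unfold news at hy
      rw [Finset.mem_image] at hy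
      obtain ⟨p, hp, rfl⟩ := hy
      unfold cut at hp
      rw [Finset.mem_filter] at hp
      obtain ⟨_, hsp', _, hcut'⟩ := hp
      have hfx : slot τ p e' ∈ flex s σ a τ := by
        unfold flex
        rw [Finset.mem_filter]
        refine ⟨Finset.mem_univ _, e', hsp', fun hcon => hcut' ?_, rfl⟩
        change a p e' = a p (τ e') at hcon
        rw [hcon]
      rcases Finset.mem_union.1 (hsub hfx) with h3 | h3
      · exact hyB h3
      · unfold news at h3
        rw [Finset.mem_image] at h3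
        obtain ⟨q, _, hq⟩ := h3
        rcases (slot_eq hq).2 with h4 | h4
        · exact h1 h4.symm
        · apply h2
          rw [h4, hτ.inv]
    refine hmax _ _ _ hval' ?_
    rw [hn, Finset.union_empty]
    exact hinc
  have hsum := sum_defect hτ ha h hpr (B := B) (δ := δ) hk
  set D : E → ℝ := fun e => if t e = k then mass σ μ (s e) * pr e *
      (Phi σ μ c B - Phi σ μ (pull s σ a τ c B δ e) (B ∪ news s σ a τ c B e)) else 0 with hD
  have hDpos : ∀ e', e' ∉ ({e, τ e} : Finset E) → 0 ≤ D e' := by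
    intro e' he'
    rw [Finset.mem_insert, Finset.mem_singleton, not_or] at he'
    simp only [hD]
    split_ifs with h1
    · refine mul_nonneg (mul_nonneg (mass_nonneg h e') (h.pr_pos e').le) ?_
      have := hother e' h1 he'.1 he'.2
      linarith
    · exact le_rfl
  have hD2 : D e + D (τ e) ≤ 0 := by
    have h1 : ∑ e', D e' = ∑ e' ∈ ({e, τ e} : Finset E), D e' +
        ∑ e' ∈ Finset.univ \ ({e, τ e} : Finset E), D e' := by
      rw [add_comm]
      exact (Finset.sum_sdiff (Finset.subset_univ _)).symm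
    have h2 : ∑ e' ∈ ({e, τ e} : Finset E), D e' = D e + D (τ e) := by
      rw [Finset.sum_pair heτ.symm]
    have h3 : 0 ≤ ∑ e' ∈ Finset.univ \ ({e, τ e} : Finset E), D e' :=
      Finset.sum_nonneg fun e' he' => hDpos e' (Finset.mem_sdiff.1 he').2
    rw [hsum, h2] at h1
    linarith
  have hm : 0 < mass σ μ (s e) * pr e := by
    rw [hsp]
    exact mul_pos (mass_pos h.mu_pos p₀) (h.pr_pos e)
  have hD3 : 2 * Phi σ μ c B ≤ Phi σ μ (pull s σ a τ c B δ e) (B ∪ news s σ a τ c B e) +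
      Phi σ μ (pull s σ a τ c B δ (τ e)) (B ∪ news s σ a τ c B (τ e)) := by
    simp only [hD, hτ.ht, hek, if_true, hτ.hs, hpr] at hD2
    rw [← mul_add] at hD2
    by_contra hlt
    push Not at hlt
    have := mul_pos hm (show 0 < (Phi σ μ c B - Phi σ μ (pull s σ a τ c B δ e)
      (B ∪ news s σ a τ c B e)) + (Phi σ μ c B - Phi σ μ (pull s σ a τ c B δ (τ e))
      (B ∪ news s σ a τ c B (τ e))) by linarith)
    linarith
  rw [hnewsτ] at hD3
  have hW : ∑ y ∈ flex s σ a τ, wt σ μ y.1 ≤ ∑ y ∈ B ∪ news s σ a τ c B e, wt σ μ y.1 :=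
    Finset.sum_le_sum_of_subset_of_nonneg hsub fun y _ _ => (wt_pos h.mu_pos _).le
  have hM0 : ∑ p ∈ c₀, wt σ μ p ≤ Phi σ μ c B := by
    have := hmax c₀ ∅ ∅ hc₀ hemp
    simpa [Phi] using this
  unfold Phi at hD3 hM0
  refine ⟨by linarith, fun ρ hρ => ?_⟩
  have hr1 := child_rank hτ ha hcn h hpr hsu hρ (vala_pull hv hz hte) z
  have hr2 := child_rank hτ ha hcn h hpr hsu hρ
    (vala_pull hv hz (e := τ e) (by rw [hτ.ht, hte])) z
  have h9 : 2 * ∑ p ∈ c₀, wt σ μ p + ∑ y ∈ flex s σ a τ, wt σ μ y.1 ≤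
      ∑ p ∈ pull s σ a τ c B δ e, wt σ μ p + ∑ p ∈ pull s σ a τ c B δ (τ e), wt σ μ p := by
    linarith
  have h10 := mul_le_mul_of_nonneg_left h9 (Nat.cast_nonneg (α := ℝ) ρ)
  linarith

end Pool.Agent.H99.TT
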