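import Pool.Agent.H99.TT.Main2
import Pool.Agent.H99.TT.Pair
import Pool.Agent.H26.Bunchy.Rigid
import Pool.Agent.H26.Bunchy.Cover
import Pool.Agent.H26.Bunchy.Third3
import Pool.Agent.H49.SB.Lev
import Pool.Agent.H43.TR.Heavy

/-!
# The structure of a smallest synchronizing factor: final form

Module of `MP_644d19_co` (bunch structure).
-/

set_option autoImplicit false
set_option linter.unusedSectionVars false
set_option linter.unusedVariables false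
set_option linter.deprecated false

namespace Pool.Agent.H99.TT

open Pool.Agent.H75.Bunchy Pool.Agent.H26.Bunchy Pool.Agent.H49.SB
open scoped Classical

section Graphs

noncomputable local instance (G : Graph) : Fintype G.V := Fintype.ofFinite _
noncomputable local instance (G : Graph) : Fintype G.E := Fintype.ofFinite _

variable {G H : Graph}

/-- **The bounds, for graphs without stable recolourings.** -/
theorem bounds_graph2 (Φ : RightResolver G H) (hG : G.StronglyConnected)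
    (hno : ∀ Φ' : RightResolver G H, Φ'.v = Φ.v → NoStable H.src H.tgt Φ'.v Φ'.act)
    {ρ : ℕ} (hρ : ∀ Φ' : RightResolver G H, Φ'.v = Φ.v → ρ ≤ rank H.src H.tgt Φ'.v Φ'.act)
    {pr : H.V → H.V → ℝ} {μ : G.V → ℝ} (hf : FairWeights Φ.v pr μ) :
    3 * ∑ᶠ x, (splits Φ.v x : ℝ) * share Φ.v μ x ≤ 2 ∧
    (∀ C : Set G.V, C.Nonempty → Collapsible (H := H) Φ.v C →
      (ρ : ℝ) * (2 * ∑ᶠ z ∈ C, share Φ.v μ z +
        ∑ᶠ x, (splits Φ.v x : ℝ) * share Φ.v μ x) ≤ 2) ∧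
    ((∃ x, splits Φ.v x ≠ 0) →
      ∃ D : Set G.V, D.Nonempty ∧ D.ncard ≤ 2 ∧ Splitting (H := H) Φ.v D ∧
        ∀ C : Set G.V, C.Nonempty → Collapsible (H := H) Φ.v C →
          12 * ∑ᶠ z ∈ C, share Φ.v μ z + 3 * ∑ᶠ x, (splits Φ.v x : ℝ) * share Φ.v μ x ≤ 4 ∧
          3 * (2 * ∑ᶠ z ∈ C, share Φ.v μ z + ∑ᶠ x, (splits Φ.v x : ℝ) * share Φ.v μ x) ≤
            2 + 3 * ∑ᶠ x ∈ D, share Φ.v μ x) := by
  obtain ⟨τ, hτ, hpair, hone⟩ := exists_pairing H
  obtain ⟨Φ', hv, hΦ'⟩ := exists_spread Φ hτ hone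
  -- the letter of the pair over `J`
  have hlet : ∀ p J, 2 ≤ (FollowersOver Φ.v p J).ncard → ∃ e, H.src e = Φ.v p ∧ H.tgt e = J ∧
      Φ'.act p e ≠ Φ'.act p (τ e) := by
    intro p J h2
    obtain ⟨e, h3, h4, h5⟩ := hpair (Φ.v p) J (h2.trans (Φ.ncard_followersOver_le p J))
    exact ⟨e, h3, h4, hΦ' p e h3 h5 (by rw [h4]; exact h2)⟩
  have hf' : FairWeights Φ'.v pr μ := by rw [hv]; exact hf
  have hstat := hf'.toStat
  have htwist : ∀ δ, ∃ Φ'' : RightResolver G H, Φ''.v = Φ.v ∧ Φ''.act = tw τ δ Φ'.act := by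
    intro δ
    obtain ⟨Φ'', hv'', hact''⟩ := exists_twist Φ' hτ δ
    exact ⟨Φ'', by rw [hv'', hv], hact''⟩
  have hsu : ∀ e, ∃ p, H.src e = Φ'.v p := fun e => by
    obtain ⟨p, hp⟩ := Φ'.v_surj (H.src e)
    exact ⟨p, hp.symm⟩
  have hno' : ∀ δ, NoStable H.src H.tgt Φ'.v (tw τ δ Φ'.act) := fun δ => by
    obtain ⟨Φ'', hv'', hact''⟩ := htwist δ
    have := hno Φ'' hv''
    rw [hv'', hact''] at this
    rw [hv]
    exact this
  have hρ' : ∀ δ, ρ ≤ rank H.src H.tgt Φ'.v (tw τ δ Φ'.act) := fun δ => by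
    obtain ⟨Φ'', hv'', hact''⟩ := htwist δ
    have := hρ Φ'' hv''
    rw [hv'', hact''] at this
    rw [hv]
    exact this
  -- collapsible sets
  have hvala : ∀ C : Set G.V, C.Nonempty → Collapsible (H := H) Φ.v C →
      Vala H.src H.tgt Φ'.v Φ'.act τ C.toFinite.toFinset ∅ ∅ := by
    rintro C ⟨z, hz⟩ ⟨J, hCJ, hu⟩
    refine ⟨J, fun x hx => ?_, fun δ' _ => ?_⟩
    · rw [Set.Finite.mem_toFinset] at hx
      rw [hv]; exact hCJ x hx
    · obtain ⟨Φ'', hv'', hact''⟩ := htwist δ'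
      obtain ⟨u, K', hK'⟩ := hu Φ'' hv''
      have hpath := ((Φ''.leads_iff _ _ _).1 (hK' z hz)).1
      rw [hv'', hCJ z hz] at hpath
      refine ⟨u, hpath, fun x hx y hy => ?_⟩
      rw [Set.Finite.mem_toFinset] at hx hy
      have h1 := ((Φ''.leads_iff _ _ _).1 (hK' x hx)).2
      have h2 := ((Φ''.leads_iff _ _ _).1 (hK' y hy)).2
      rw [← hact'', h1, h2]
  have hS := splits_le_flex Φ hτ hv hlet hf
  have hCsum : ∀ C : Set G.V, ∑ᶠ z ∈ C, share Φ.v μ z =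
      ∑ p ∈ C.toFinite.toFinset, wt Φ.v μ p := fun C => by
    rw [finsum_mem_eq_finite_toFinset_sum _ C.toFinite]
    simp only [share_eq]
  have hpos : ∀ x, 0 < share Φ.v μ x := fun x => by
    rw [share_eq]; exact wt_pos hf.mu_pos x
  by_cases hfl : (flex H.src Φ'.v Φ'.act τ).Nonempty
  swap
  · have hS0 : ∑ᶠ x, (splits Φ.v x : ℝ) * share Φ.v μ x ≤ 0 := by
      refine hS.trans ?_
      rw [Finset.not_nonempty_iff_eq_empty] at hfl
      rw [hfl, Finset.sum_empty]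
    refine ⟨by linarith, fun C hne hC => ?_, fun hsp => ?_⟩
    · obtain ⟨z, hz⟩ := id hne
      have hb := rank_bound_no_flex (τ := τ) hτ Φ'.act_typed (Φ'.conn hG) hstat
        (fun e => by simp only [hτ.hs, hτ.ht]) hsu hfl hρ' (hvala C hne hC) z
      rw [hv] at hb hS
      rw [hCsum]
      refine le_trans (mul_le_mul_of_nonneg_left (add_le_add_right hS _)
        (Nat.cast_nonneg (α := ℝ) ρ)) hb
    · obtain ⟨x, hx⟩ := hsp
      unfold splits at hx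
      obtain ⟨J, hJ⟩ := Set.nonempty_of_ncard_ne_zero hx
      obtain ⟨e, he1, he2, he3⟩ := hlet x J hJ
      refine absurd ⟨slot τ x e, ?_⟩ hfl
      unfold flex
      rw [Finset.mem_filter]
      exact ⟨Finset.mem_univ _, e, by rw [hv]; exact he1, he3, rfl⟩
  obtain ⟨D, e, hDne, hDcard, hDe, hb⟩ := pair_bound (τ := τ) hτ Φ'.act_typed (Φ'.conn hG) hstat
    (fun e => by simp only [hτ.hs, hτ.ht]) hsu hno' hfl
  rw [hv] at hb hS
  have hDsum : ∑ᶠ x ∈ (D : Set G.V), share Φ.v μ x = ∑ p ∈ D, wt Φ.v μ p := by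
    rw [finsum_mem_coe_finset]
    simp only [share_eq]
  have hDsp : Splitting (H := H) Φ.v (D : Set G.V) := by
    refine ⟨H.src e, H.tgt e, fun x hx => ?_⟩
    obtain ⟨h1, h2⟩ := hDe x hx
    refine ⟨by rw [← hv]; exact h1.symm, ?_⟩
    rw [← hv]
    have h3 : ({Φ'.act x e, Φ'.act x (τ e)} : Set G.V) ⊆ FollowersOver Φ'.v x (H.tgt e) := by
      rintro q (rfl | hq)
      · rw [Φ'.mem_followersOver]
        exact ⟨e, h1, rfl, rfl⟩
      · rw [Set.mem_singleton_iff] at hq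
        subst hq
        rw [Φ'.mem_followersOver]
        exact ⟨τ e, by rw [hτ.hs]; exact h1, hτ.ht e, rfl⟩
    rw [← Set.ncard_pair h2]
    exact Set.ncard_le_ncard h3 (Set.toFinite _)
  -- the weight of `D` is part of the weight of the slots
  have hDflex : ∑ p ∈ D, wt Φ.v μ p ≤ ∑ y ∈ flex H.src Φ.v Φ'.act τ, wt Φ.v μ y.1 := by
    have h1 : ∑ p ∈ D, wt Φ.v μ p = ∑ y ∈ D.image (fun p => slot τ p e), wt Φ.v μ y.1 := by
      rw [Finset.sum_image]
      · rfl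
      · intro p _ q _ hpq
        exact (slot_eq hpq).1
    rw [h1]
    refine Finset.sum_le_sum_of_subset_of_nonneg ?_ fun y _ _ => (wt_pos hf.mu_pos _).le
    intro y hy
    rw [Finset.mem_image] at hy
    obtain ⟨p, hp, rfl⟩ := hy
    unfold flex
    rw [Finset.mem_filter]
    exact ⟨Finset.mem_univ _, e, by rw [← hv]; exact (hDe p hp).1, (hDe p hp).2, rfl⟩
  have key : ∀ C : Set G.V, C.Nonempty → Collapsible (H := H) Φ.v C →
      12 * ∑ᶠ z ∈ C, share Φ.v μ z + 3 * ∑ᶠ x, (splits Φ.v x : ℝ) * share Φ.v μ x ≤ 4 ∧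
      3 * (2 * ∑ᶠ z ∈ C, share Φ.v μ z + ∑ᶠ x, (splits Φ.v x : ℝ) * share Φ.v μ x) ≤
        2 + 3 * ∑ᶠ x ∈ (D : Set G.V), share Φ.v μ x := by
    intro C hne hC
    have h1 := (hb _ (by rw [← hv]; exact hvala C hne hC)).1
    have h2 := quarter_bound (τ := τ) hτ Φ'.act_typed (Φ'.conn hG) hstat
      (fun e => by simp only [hτ.hs, hτ.ht]) hsu hno' hfl (hvala C hne hC)
    rw [hv] at h2
    rw [hDsum, hCsum]
    refine ⟨by linarith, ?_⟩
    linarith
  refine ⟨?_, fun C hne hC => ?_, fun _ => ⟨D, by simpa using hDne, ?_, hDsp, key⟩⟩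
  · -- two thirds
    obtain ⟨p, hp⟩ := id hDne
    have : Nonempty G.V := ⟨p⟩
    obtain ⟨z, hz⟩ := Finite.exists_max (fun x => share Φ.v μ x)
    have h3 := (key {z} ⟨z, rfl⟩ (collapsible_singleton Φ.v z)).2
    rw [finsum_mem_singleton, hDsum] at h3
    have h4 : ∑ p ∈ D, wt Φ.v μ p ≤ D.card • share Φ.v μ z := by
      refine Finset.sum_le_card_nsmul _ _ _ fun q _ => ?_
      rw [← share_eq]; exact hz q
    have h5 : (D.card : ℝ) ≤ 2 := by exact_mod_cast hDcard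
    rw [nsmul_eq_mul] at h4
    have h6 := mul_le_mul_of_nonneg_right h5 (hpos z).le
    linarith
  · have h1 := (hb _ (by rw [← hv]; exact hvala C hne hC)).2 ρ (by rw [← hv]; exact hρ')
    rw [hCsum]
    exact le_trans (mul_le_mul_of_nonneg_left (add_le_add_right hS _)
      (Nat.cast_nonneg (α := ℝ) ρ)) h1
  · rw [Set.ncard_coe_finset]; exact hDcard

lemma narrow_of_list (v : G.V → H.V) (J : H.V) (β : List H.V) (h : NarrowList v (J :: β)) :
    Narrow v J β := by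
  induction β generalizing J with
  | nil => trivial
  | cons K β ih =>
    unfold NarrowList at h
    rw [List.isChain_cons_cons] at h
    exact ⟨h.1, ih K h.2⟩

/-- **Double bunches behind closed walks with narrow tail.** -/
theorem double_bunch_list (Φ : RightResolver G H) (hG : G.StronglyConnected)
    (hno : ∀ Φ' : RightResolver G H, Φ'.v = Φ.v → NoStable H.src H.tgt Φ'.v Φ'.act)
    {γ : List H.V} (hγ : γ ≠ []) (hr : NarrowList Φ.v γ) :
    (∀ x ∈ Core Φ.v (γ.getLast hγ) γ, (Ends Φ.v γ x).ncard = 1) ∨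
      ∃ x ∈ Core Φ.v (γ.getLast hγ) γ, ∃ y ∈ Core Φ.v (γ.getLast hγ) γ, x ≠ y ∧
        ∃ r, Ends Φ.v γ x = {r} ∧ Ends Φ.v γ y = {r} := by
  match γ, hγ, hr with
  | J :: β, hγ, hr => exact double_bunch_graph Φ hG hno rfl (narrow_of_list Φ.v J β hr)

end Graphs

/-- **The structure of a smallest synchronizing factor.** -/
theorem main_bunch (G B : Graph) (hG : G.StronglyConnected) (Φ : RightResolver G B) :
    ∃ (H : Graph) (Θ : RightResolver H B) (Ψ : RightResolver G H), Ψ.Synchronizing ∧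
      (∀ p, Θ.v (Ψ.v p) = Φ.v p) ∧
      (IsBunchy B → (Function.Injective Θ.v ∨
        (∀ r : ℕ, 3 ≤ r → DegreeLe (H := B) Φ.v (r - 1) ∨ ∃ J, ¬ EqualParts (H := B) Φ.v J r) ∨
        ∃ (pr : B.V → B.V → ℝ) (μ : G.V → ℝ), FairWeights Φ.v pr μ ∧
          ∀ s : ℝ, 0 < s → 3 * s ≤ 2 →
            (∃ C : Set G.V, C.Nonempty ∧ Collapsible (H := B) Φ.v C ∧
              4 < 12 * ∑ᶠ z ∈ C, share Φ.v μ z + 3 * s) ∨
            s < ∑ᶠ x, ({J | 4 < 12 * ∑ᶠ z ∈ FollowersOver Φ.v x J, share Φ.v μ z +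
              3 * s}.ncard : ℝ) * share Φ.v μ x) → IsBunchy H) ∧
      ∀ (N : Graph) (Λ : RightResolver H N),
        (Minimal B ∨ ∃ Γ : RightResolver N B, ∀ x, Γ.v (Λ.v x) = Θ.v x) →
        (∀ (γ : List N.V) (hγ : γ ≠ []), NarrowList Λ.v γ →
          (∀ x ∈ Core Λ.v (γ.getLast hγ) γ, (Ends Λ.v γ x).ncard = 1) ∨
          ∃ x ∈ Core Λ.v (γ.getLast hγ) γ, ∃ y ∈ Core Λ.v (γ.getLast hγ) γ, x ≠ y ∧
            ∃ r, Ends Λ.v γ x = {r} ∧ Ends Λ.v γ y = {r}) ∧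
        (¬ Function.Injective Λ.v →
          ∃ ρ : ℕ, 2 ≤ ρ ∧ LeastDegree (H := N) Λ.v ρ ∧ (ρ = 2 → DoubleCover (H := N) Λ.v) ∧
            ∀ (pr : N.V → N.V → ℝ) (μ : H.V → ℝ), FairWeights Λ.v pr μ →
              3 * ∑ᶠ x, (splits Λ.v x : ℝ) * share Λ.v μ x ≤ 2 ∧
              (∀ C : Set H.V, C.Nonempty → Collapsible (H := N) Λ.v C →
                (ρ : ℝ) * (2 * ∑ᶠ z ∈ C, share Λ.v μ z +
                  ∑ᶠ x, (splits Λ.v x : ℝ) * share Λ.v μ x) ≤ 2) ∧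
              ((∃ x, splits Λ.v x ≠ 0) → ∃ D : Set H.V, D.Nonempty ∧ D.ncard ≤ 2 ∧
                Splitting (H := N) Λ.v D ∧
                ∀ C : Set H.V, C.Nonempty → Collapsible (H := N) Λ.v C →
                  12 * ∑ᶠ z ∈ C, share Λ.v μ z +
                    3 * ∑ᶠ x, (splits Λ.v x : ℝ) * share Λ.v μ x ≤ 4 ∧
                  3 * (2 * ∑ᶠ z ∈ C, share Λ.v μ z +
                    ∑ᶠ x, (splits Λ.v x : ℝ) * share Λ.v μ x) ≤
                      2 + 3 * ∑ᶠ x ∈ D, share Λ.v μ x)) := by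
  obtain ⟨H, Θ, Ψ, hΨ, hcomm, hmin⟩ := exists_smallest G B Φ
  have hH : H.StronglyConnected := StronglyConnected.map Ψ hG
  have hall : ∀ (N : Graph) (Λ : RightResolver H N),
      (Minimal B ∨ ∃ Γ : RightResolver N B, ∀ x, Γ.v (Λ.v x) = Θ.v x) →
      ∀ Λ' : RightResolver H N, Λ'.v = Λ.v → NoStable N.src N.tgt Λ'.v Λ'.act := by
    intro N Λ hov Λ' hv
    have hov' : OverBase Θ Λ := by
      rcases hov with hB | h
      · exact overBase_of_minimal hB Θ Λ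
      · exact h
    exact noStable_of_smallest hΨ hcomm hmin Λ' (hov'.congr hv)
  have hnoB : ∀ Θ' : RightResolver H B, Θ'.v = Θ.v → NoStable B.src B.tgt Θ'.v Θ'.act :=
    hall B Θ (Or.inr ⟨RightResolver.id B, fun _ => rfl⟩)
  refine ⟨H, Θ, Ψ, hΨ, hcomm, fun hB h => ?_, fun N Λ hov => ?_⟩
  · rcases h with h | h | ⟨pr, μ, hf, h⟩
    · exact isBunchy_of_injective hB Θ h
    · exact isBunchy_of_level_or_degree hB Θ Ψ hcomm hH hnoB h
    · refine Pool.Agent.H43.TR.isBunchy_of_heavy hB Θ Ψ hcomm hf (fun μ' hf' hsp => ?_) h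
      obtain ⟨h1, -, h2⟩ := bounds_graph2 Θ hH hnoB (ρ := 0) (fun _ _ => Nat.zero_le _) hf'
      obtain ⟨D, -, -, -, h3⟩ := h2 hsp
      exact ⟨h1, fun C hne hC => (h3 C hne hC).1⟩
  have hno := hall N Λ hov
  refine ⟨fun γ hγ hr => double_bunch_list Λ hH hno hγ hr, fun hi => ?_⟩
  have hne : Nonempty H.V := by
    by_contra h
    rw [not_nonempty_iff] at h
    exact hi fun x => (h.false x).elim
  obtain ⟨ρ, hρ, Λ₀, hv₀, J₀, u₀, hu₀, hcard⟩ := exists_least Λ hne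
  have hle : ∀ (Λ' : RightResolver H N) (J : N.V) (u : List N.E), Λ'.v = Λ.v → N.IsPath J u →
      rank N.src N.tgt Λ'.v Λ'.act ≤ {K | ∃ I, Λ'.v I = J ∧ Λ'.Leads I u K}.ncard := by
    intro Λ' J u hv hu
    obtain ⟨q, rfl⟩ := Λ'.v_surj J
    rw [ends_eq Λ' hu]
    exact rank_le q u ((isPath_iff _ _ _).1 hu)
  have h2 : 2 ≤ rank N.src N.tgt Λ₀.v Λ₀.act :=
    two_le_rank_of_not_injective Λ₀.act_typed (Λ₀.conn hH) (hno Λ₀ hv₀) (by rw [hv₀]; exact hi)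
  have h3 : rank N.src N.tgt Λ₀.v Λ₀.act ≤ ρ := by
    rw [← hcard]; exact hle Λ₀ J₀ u₀ hv₀ hu₀
  exact ⟨ρ, h2.trans h3, ⟨fun Λ' J u hv hu => (hρ Λ' hv).trans (hle Λ' J u hv hu),
    ⟨Λ₀, J₀, u₀, hv₀, hu₀, hcard⟩⟩,
    fun hρ2 => cover_clause Θ hH hall Λ hov Λ₀ hv₀ (by omega),
    fun pr μ hf => bounds_graph2 Λ hH hno hρ hf⟩

end Pool.Agent.H99.TT
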