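import Pool.Agent.H97.Bun.TwoWt
import Pool.Agent.H97.Bun.Two

/-!
# Two colourings of rank two without stable pairs that differ at one state

Module of `MP_644d19_co` (two thirds).
-/

set_option autoImplicit false
set_option linter.unusedSectionVars false
set_option linter.deprecated false

namespace Pool.Agent.H99.TT

open Pool.Agent.H75.Bunchy Pool.Agent.H26.Bunchy Pool.Agent.H97.Bun
open scoped Classical

section Alt

variable {V : Type*}

lemma not_sameCycle {T1 T2 : Equiv.Perm V} (h1 : ∀ x, T1 (T1 x) = x) (h2 : ∀ x, T2 (T2 x) = x)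
    (n1 : ∀ x, T1 x ≠ x) (n2 : ∀ x, T2 x ≠ x) (p : V) : ¬ (T1 * T2).SameCycle p (T1 p) := by
  have i1 : T1⁻¹ = T1 := by
    ext x; rw [Equiv.Perm.inv_eq_iff_eq, h1]
  have i2 : T2⁻¹ = T2 := by
    ext x; rw [Equiv.Perm.inv_eq_iff_eq, h2]
  set ρ := T1 * T2 with hρ
  have hc : T1 * ρ * T1⁻¹ = ρ⁻¹ := by
    rw [hρ, mul_inv_rev, i1, i2, mul_assoc T1 (T1 * T2) T1, mul_assoc T1 T2 T1, ← mul_assoc T1 T1]
    have : T1 * T1 = 1 := by
      ext x; simp [h1]
    rw [this, one_mul]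
  have hcz : ∀ n : ℤ, T1 * ρ ^ n * T1⁻¹ = ρ ^ (-n) := by
    intro n
    rw [← conj_zpow, hc, inv_zpow, zpow_neg]
  have hcz' : ∀ (n : ℤ) (x : V), T1 ((ρ ^ n) x) = (ρ ^ (-n)) (T1 x) := by
    intro n x
    have := congrArg (fun g : Equiv.Perm V => g (T1 x)) (hcz n)
    simp only [Equiv.Perm.mul_apply] at this
    rw [i1, h1] at this
    exact this
  rintro ⟨n, hn⟩
  rcases Int.even_or_odd n with ⟨m, hm⟩ | ⟨m, hm⟩
  · apply n1 ((ρ ^ m) p)
    rw [hcz', ← hn, ← Equiv.Perm.mul_apply, ← zpow_add, hm]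
    congr 2
    ring
  · have h3 : ρ ((ρ ^ m) p) = T1 ((ρ ^ m) p) := by
      rw [hcz', ← hn, ← Equiv.Perm.mul_apply, ← Equiv.Perm.mul_apply, ← zpow_add, hm,
        ← zpow_one_add]
      congr 2
      ring
    rw [hρ, Equiv.Perm.mul_apply] at h3
    exact n2 _ (T1.injective h3)

/-- two fixed point free involutions have a common antisymmetric function not vanishing at `p` -/
lemma exists_alt {τ1 τ2 : V → V} (h1 : ∀ x, τ1 (τ1 x) = x) (h2 : ∀ x, τ2 (τ2 x) = x)
    (n1 : ∀ x, τ1 x ≠ x) (n2 : ∀ x, τ2 x ≠ x) (p : V) :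
    ∃ f : V → ℝ, (∀ x, f (τ1 x) = - f x) ∧ (∀ x, f (τ2 x) = - f x) ∧ f p ≠ 0 := by
  set T1 : Equiv.Perm V := Function.Involutive.toPerm τ1 h1 with hT1
  set T2 : Equiv.Perm V := Function.Involutive.toPerm τ2 h2 with hT2
  have a1 : ∀ x, T1 x = τ1 x := fun x => rfl
  have a2 : ∀ x, T2 x = τ2 x := fun x => rfl
  have i1 : T1⁻¹ = T1 := by
    ext x; rw [Equiv.Perm.inv_eq_iff_eq, a1, a1, h1]
  have i2 : T2⁻¹ = T2 := by
    ext x; rw [Equiv.Perm.inv_eq_iff_eq, a2, a2, h2]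
  set ρ := T1 * T2 with hρ
  have hns : ∀ q, ¬ ρ.SameCycle q (T1 q) := fun q =>
    not_sameCycle (T1 := T1) (T2 := T2) (by simpa [a1] using h1) (by simpa [a2] using h2)
      (by simpa [a1] using n1) (by simpa [a2] using n2) q
  have hc : T1 * ρ * T1⁻¹ = ρ⁻¹ := by
    rw [hρ, mul_inv_rev, i1, i2, mul_assoc T1 (T1 * T2) T1, mul_assoc T1 T2 T1, ← mul_assoc T1 T1]
    have : T1 * T1 = 1 := by
      ext x; simp [a1, h1]
    rw [this, one_mul]
  have key : ∀ x y, ρ.SameCycle (T1 x) (T1 y) ↔ ρ.SameCycle x y := by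
    intro x y
    rw [← Equiv.Perm.sameCycle_inv, ← hc, Equiv.Perm.sameCycle_conj]
    simp
  have hrho : ∀ x y, ρ.SameCycle x (ρ y) ↔ ρ.SameCycle x y := fun x y =>
    Equiv.Perm.sameCycle_apply_right
  have ht2 : ∀ x, T2 x = T1 (ρ x) := by
    intro x
    rw [hρ, Equiv.Perm.mul_apply, a1, a1, h1]
  have ht11 : ∀ x, T1 (T1 x) = x := by simpa [a1] using h1
  set f : V → ℝ := fun x => if ρ.SameCycle p x then 1 else if ρ.SameCycle (T1 p) x then -1 else 0
    with hf
  have hex : ∀ x, ρ.SameCycle p x → ¬ ρ.SameCycle (T1 p) x := fun x hx hx' =>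
    hns p (hx.trans hx'.symm)
  have hf1 : ∀ x, f (T1 x) = - f x := by
    intro x
    have e1 : ρ.SameCycle p (T1 x) ↔ ρ.SameCycle (T1 p) x := by
      rw [← key, ht11]
    have e2 : ρ.SameCycle (T1 p) (T1 x) ↔ ρ.SameCycle p x := key p x
    simp only [hf, e1, e2]
    by_cases hx : ρ.SameCycle p x
    · have := hex x hx
      simp [hx, this]
    · by_cases hx' : ρ.SameCycle (T1 p) x
      · simp [hx, hx']
      · simp [hx, hx']
  have hfr : ∀ x, f (ρ x) = f x := by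
    intro x
    simp only [hf, hrho]
  refine ⟨f, hf1, fun x => ?_, ?_⟩
  · rw [← a2, ht2, hf1, hfr]
  · simp only [hf]
    rw [if_pos (Equiv.Perm.SameCycle.refl _ _)]
    norm_num

end Alt

section Aut

variable {V K E : Type*} [Fintype V] [Fintype E] {s t : E → K} {σ : V → K} {b b' : V → E → V}
  {pr : E → ℝ} {μ : V → ℝ}

/-- Two colourings of rank two without stable pairs do not differ by one exchange. -/
theorem nsf22 {e1 e2 : E} (hs : s e2 = s e1) (ht : t e2 = t e1) {x₀ : V} (hx₀ : s e1 = σ x₀)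
    (hb : Typed s t σ b) (hcb : Conn s σ b) (hst : Stat s σ b pr μ) (hno : NoStable s t σ b)
    (hb' : Typed s t σ b') (hcb' : Conn s σ b') (hst' : Stat s σ b' pr μ)
    (hno' : NoStable s t σ b')
    (hdiff : ∀ p e, s e = σ p → ¬ (p = x₀ ∧ (e = e1 ∨ e = e2)) → b' p e = b p e)
    (h1 : b' x₀ e1 = b x₀ e2) (h2 : b' x₀ e2 = b x₀ e1) (hne : b x₀ e1 ≠ b x₀ e2)
    (hr : rank s t σ b = 2) (hr' : rank s t σ b' = 2) : False := by
  obtain ⟨τ1, p1, p2, p3, p4⟩ := exists_tau hb hcb hno hr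
  obtain ⟨τ2, q1, q2, q3, q4⟩ := exists_tau hb' hcb' hno' hr'
  -- common antisymmetric functions
  have hfeq : ∀ f : V → ℝ, (∀ x, f (τ1 x) = - f x) → (∀ x, f (τ2 x) = - f x) →
      f (b x₀ e1) = f (b x₀ e2) := by
    intro f hf1 hf2
    have m1 : mean σ μ (s e1) (fun p => f (b p e1)) = 0 :=
      anti_mean p1 p3 (fun p => wt_tau hb hcb hst p1 p3 p4 p) (fun p hp => by
        rw [p4 p e1 hp.symm, hf1])
    have m2 : mean σ μ (s e1) (fun p => f (b' p e1)) = 0 :=
      anti_mean q1 q3 (fun p => wt_tau hb' hcb' hst' q1 q3 q4 p) (fun p hp => by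
        rw [q4 p e1 hp.symm, hf2])
    have m3 : mean σ μ (s e1) (fun p => f (b p e1) - f (b' p e1)) = 0 := by
      rw [mean_sub, m1, m2, sub_zero]
    have m4 : mean σ μ (s e1) (fun p => f (b p e1) - f (b' p e1)) =
        wt σ μ x₀ * (f (b x₀ e1) - f (b' x₀ e1)) := by
      rw [hx₀]
      unfold mean
      rw [Finset.sum_eq_single x₀]
      · rw [if_pos rfl]
      · intro p _ hp
        split_ifs with h
        · simp only
          rw [hdiff p e1 (by rw [hx₀, h]) (fun hcon => hp hcon.1), sub_self, mul_zero]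
        · rfl
      · intro h; exact absurd (Finset.mem_univ _) h
    rw [m4, h1] at m3
    rcases mul_eq_zero.1 m3 with h | h
    · exact absurd h (wt_pos (σ := σ) hst.mu_pos x₀).ne'
    · linarith
  -- the congruence
  set R : V → V → Prop := fun p q => σ p = σ q ∧ ∀ f : V → ℝ, (∀ x, f (τ1 x) = - f x) →
    (∀ x, f (τ2 x) = - f x) → f p = f q with hR
  have hRτ : ∀ p, ¬ R p (τ1 p) := by
    rintro p ⟨_, h⟩
    obtain ⟨f, hf1, hf2, hf3⟩ := exists_alt p1 q1 p2 q2 p
    have h3 := h f hf1 hf2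
    rw [hf1] at h3
    apply hf3
    linarith
  have hbb : ∀ f : V → ℝ, (∀ x, f (τ1 x) = - f x) → (∀ x, f (τ2 x) = - f x) →
      ∀ p e, s e = σ p → f (b' p e) = f (b p e) := by
    intro f hf1 hf2 p e he
    by_cases hpe : p = x₀ ∧ (e = e1 ∨ e = e2)
    · obtain ⟨rfl, rfl | rfl⟩ := hpe
      · rw [h1]; exact (hfeq f hf1 hf2).symm
      · rw [h2]; exact hfeq f hf1 hf2
    · rw [hdiff p e he hpe]
  have hRl : ∀ p q e, s e = σ p → R p q → R (b p e) (b q e) := by
    rintro p q e he ⟨hpq, h⟩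
    refine ⟨by rw [hb p e he, hb q e (by rw [he, hpq])], fun f hf1 hf2 => ?_⟩
    have h3 := h (fun z => if s e = σ z then f (b z e) else 0) (fun z => ?_) (fun z => ?_)
    · simp only [he, hpq, if_true] at h3
      exact h3
    · rw [p3 z]
      by_cases hz : s e = σ z
      · rw [if_pos hz, if_pos hz, p4 z e hz, hf1]
      · rw [if_neg hz, if_neg hz, neg_zero]
    · rw [q3 z]
      by_cases hz : s e = σ z
      · rw [if_pos hz, if_pos hz, ← hbb f hf1 hf2 (τ2 z) e (by rw [q3, hz]), q4 z e hz, hf2,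
          hbb f hf1 hf2 z e hz]
      · rw [if_neg hz, if_neg hz, neg_zero]
  have hRw : ∀ (v : List E) p q, Valid s t (σ p) v → R p q → R (run b p v) (run b q v) := by
    intro v
    induction v with
    | nil => intro p q _ h; exact h
    | cons e v ih =>
      intro p q hv h
      obtain ⟨he, hv⟩ := hv
      rw [run_cons, run_cons]
      exact ih _ _ (by rw [hb p e he]; exact hv) (hRl p q e he h)
  -- merge
  have hxe2 : s e2 = σ x₀ := by rw [hs, hx₀]
  have hR0 : R (b x₀ e1) (b x₀ e2) :=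
    ⟨by rw [hb x₀ e1 hx₀, hb x₀ e2 hxe2, ht], fun f hf1 hf2 => hfeq f hf1 hf2⟩
  refine hne (hno _ _ ⟨hR0.1, fun v hv => ?_⟩)
  set y := b x₀ e1 with hy
  set y' := b x₀ e2 with hy'
  have hR1 := hRw v y y' hv hR0
  obtain ⟨u, hu, hru⟩ := exists_rank hb hcb (run b y v)
  have hty : σ (run b y v) = fin t (σ y) v := hb.run y v hv
  rw [hty] at hu hru
  refine ⟨u, hu, ?_⟩
  rw [run_append, run_append]
  have hR2 := hRw u _ _ (by rw [hty]; exact hu) hR1
  set P := run b y v with hP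
  set Q := run b y' v with hQ
  have hPm : run b P u ∈ img σ b (fin t (σ y) v) u := ⟨P, hty, rfl⟩
  have hQm : run b Q u ∈ img σ b (fin t (σ y) v) u := ⟨Q, by
    rw [Set.mem_setOf_eq, ← hR1.1, hty], rfl⟩
  have hPτ : τ1 (run b P u) ∈ img σ b (fin t (σ y) v) u := by
    refine ⟨τ1 P, by rw [Set.mem_setOf_eq, p3, hty], ?_⟩
    exact run_tau hb p4 u P (by rw [hty]; exact hu)
  rw [hr] at hru
  have hset : img σ b (fin t (σ y) v) u = {run b P u, τ1 (run b P u)} := by
    symm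
    apply Set.eq_of_subset_of_ncard_le _ _ (Set.toFinite _)
    · rintro z (rfl | rfl)
      · exact hPm
      · exact hPτ
    · rw [hru, Set.ncard_pair (p2 _).symm]
  rw [hset] at hQm
  rcases hQm with h | h
  · exact h.symm
  · rw [Set.mem_singleton_iff] at h
    rw [h] at hR2
    exact absurd hR2 (hRτ _)

end Aut

end Pool.Agent.H99.TT
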